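import Pool.Agent.RatTet.DisGeom

set_option autoImplicit false

/-!
# Rational disphenoids are dense among all disphenoids
-/

namespace Pool.Agent.RatTet.Dis

open Filter Topology

lemma dist_frame {e : Fin 3 → E3} (he : Orthonormal ℝ e) (O : E3) (x y z x' y' z' : ℝ) :
    dist (O + (x • e 0 + y • e 1 + z • e 2)) (O + (x' • e 0 + y' • e 1 + z' • e 2)) ^ 2 =
      (x - x') ^ 2 + (y - y') ^ 2 + (z - z') ^ 2 := by
  rw [dist_eq_norm, ← norm_frame e he]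
  congr 2
  module

lemma close_dis {e : Fin 3 → E3} (he : Orthonormal ℝ e) (O : E3) {x y z x' y' z' ε : ℝ}
    (hx : |x' - x| < ε / 3) (hy : |y' - y| < ε / 3) (hz : |z' - z| < ε / 3) :
    dist (O + (x • e 0 + y • e 1 + z • e 2)) (O + (x' • e 0 + y' • e 1 + z' • e 2)) < ε := by
  rw [dist_comm, dist_eq_norm]
  have h : O + (x' • e 0 + y' • e 1 + z' • e 2) - (O + (x • e 0 + y • e 1 + z • e 2)) =
      (x' - x) • e 0 + (y' - y) • e 1 + (z' - z) • e 2 := by module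
  rw [h]
  exact norm_small e he hx hy hz

lemma approx_dis {p : Fin 4 → E3} (hp : AffineIndependent ℝ p)
    (h1 : dist (p 0) (p 1) = dist (p 2) (p 3)) (h2 : dist (p 0) (p 2) = dist (p 1) (p 3))
    (h3 : dist (p 0) (p 3) = dist (p 1) (p 2)) (m1 : dist (p 0) (p 1) ≤ dist (p 0) (p 3))
    (m2 : dist (p 0) (p 2) ≤ dist (p 0) (p 3)) :
    ∃ (O : E3) (e : Fin 3 → E3), Orthonormal ℝ e ∧ ∀ ε : ℝ, 0 < ε →
      ∃ V : Fin 4 → Fin 3 → ℚ, (∀ i j, IsSquare (dsq V i j)) ∧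
      (∀ i j l, IsSquare (her (dsq V i j) (dsq V j l) (dsq V i l))) ∧ Opp V ∧
      ∀ i, dist (p i) (pt O e V i) < ε := by
  obtain ⟨e, he, a, x, y, x3, y3, z3, ha, hy, hz, p0, p1, p2, p3⟩ := exists_frame_dis hp
  obtain ⟨O, hO⟩ : ∃ O, O = p 0 := ⟨_, rfl⟩
  rw [← hO] at p0 p1 p2 p3
  have q0 : p 0 = O + ((0:ℝ) • e 0 + (0:ℝ) • e 1 + (0:ℝ) • e 2) := by rw [← hO]; exact p0
  have g01 : dist (p 0) (p 1) ^ 2 = a ^ 2 := by rw [q0, p1, dist_frame he]; ring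
  have g23 : dist (p 2) (p 3) ^ 2 = (x3 - x) ^ 2 + (y3 - y) ^ 2 + z3 ^ 2 := by
    rw [p2, p3, dist_frame he]; ring
  have g02 : dist (p 0) (p 2) ^ 2 = x ^ 2 + y ^ 2 := by rw [q0, p2, dist_frame he]; ring
  have g13 : dist (p 1) (p 3) ^ 2 = (x3 - a) ^ 2 + y3 ^ 2 + z3 ^ 2 := by
    rw [p1, p3, dist_frame he]; ring
  have g03 : dist (p 0) (p 3) ^ 2 = x3 ^ 2 + y3 ^ 2 + z3 ^ 2 := by
    rw [q0, p3, dist_frame he]; ring
  have g12 : dist (p 1) (p 2) ^ 2 = (x - a) ^ 2 + y ^ 2 := by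
    rw [p1, p2, dist_frame he]; ring
  have k1 : a ^ 2 = (x3 - x) ^ 2 + (y3 - y) ^ 2 + z3 ^ 2 := by rw [← g01, h1, g23]
  have k2 : x ^ 2 + y ^ 2 = (x3 - a) ^ 2 + y3 ^ 2 + z3 ^ 2 := by rw [← g02, h2, g13]
  have k3 : x3 ^ 2 + y3 ^ 2 + z3 ^ 2 = (x - a) ^ 2 + y ^ 2 := by rw [← g03, h3, g12]
  have n1 : a ^ 2 ≤ x3 ^ 2 + y3 ^ 2 + z3 ^ 2 := by
    rw [← g01, ← g03]
    exact pow_le_pow_left₀ dist_nonneg m1 2
  have n2 : x ^ 2 + y ^ 2 ≤ x3 ^ 2 + y3 ^ 2 + z3 ^ 2 := by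
    rw [← g02, ← g03]
    exact pow_le_pow_left₀ dist_nonneg m2 2
  obtain ⟨r1, r2, r3, r4, r5, r6, r7, r8, r9⟩ := dis_algebra ha hy hz k1 k2 k3 n1 n2
  obtain ⟨ξ0, hξ0⟩ : ∃ t, t = x / y := ⟨_, rfl⟩
  obtain ⟨η0, hη0⟩ : ∃ t, t = (a - x) / y := ⟨_, rfl⟩
  rw [← hξ0, ← hη0] at r4 r5 r8 r9
  rw [← hξ0] at r1 r2 r6
  rw [← hη0] at r3 r7
  refine ⟨O, e, he, fun ε hε => ?_⟩
  have hε3 : 0 < ε / 3 := by positivity
  have c1 : ContinuousAt (fun t : ℝ × ℝ × ℝ => t.1 * (t.2.1 + t.2.2)) (y, ξ0, η0) := by fun_prop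
  have c2 : ContinuousAt (fun t : ℝ × ℝ × ℝ => t.1 * t.2.1) (y, ξ0, η0) := by fun_prop
  have c3 : ContinuousAt (fun t : ℝ × ℝ × ℝ => t.1) (y, ξ0, η0) := by fun_prop
  have c4 : ContinuousAt (fun t : ℝ × ℝ × ℝ => t.1 * t.2.2) (y, ξ0, η0) := by fun_prop
  have c5 : ContinuousAt (fun t : ℝ × ℝ × ℝ => t.1 * (1 - 2 * t.2.1 * t.2.2)) (y, ξ0, η0) := by
    fun_prop
  have c6 : ContinuousAt (fun t : ℝ × ℝ × ℝ =>
      2 * t.1 * Real.sqrt (t.2.1 * t.2.2 * (1 - t.2.1 * t.2.2))) (y, ξ0, η0) := by fun_prop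
  have f1 := Metric.tendsto_nhds.mp c1.tendsto (ε / 3) hε3
  have f2 := Metric.tendsto_nhds.mp c2.tendsto (ε / 3) hε3
  have f3 := Metric.tendsto_nhds.mp c3.tendsto (ε / 3) hε3
  have f4 := Metric.tendsto_nhds.mp c4.tendsto (ε / 3) hε3
  have f5 := Metric.tendsto_nhds.mp c5.tendsto (ε / 3) hε3
  have f6 := Metric.tendsto_nhds.mp c6.tendsto (ε / 3) hε3
  obtain ⟨ρ, hρ, hball⟩ := Metric.eventually_nhds_iff.mp
    (f1.and (f2.and (f3.and (f4.and (f5.and f6)))))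
  obtain ⟨Y, hY1, hY2⟩ := exists_rat_btwn (show y - ρ < y + ρ by linarith)
  obtain ⟨ξ, η, σ, τ, ζ, w1, w2, w3, w4, w5, w6⟩ := core_dis ξ0 η0 r1 r2 r3 r4 ρ hρ
  have hd : dist ((Y:ℝ), (ξ:ℝ), (η:ℝ)) (y, ξ0, η0) < ρ := by
    rw [Prod.dist_eq, Prod.dist_eq]
    refine max_lt ?_ (max_lt ?_ ?_)
    · show dist (Y:ℝ) y < ρ
      rw [Real.dist_eq, abs_lt]
      constructor <;> linarith
    · exact w5
    · exact w6
  obtain ⟨s1, s2, s3, s4, s5, s6⟩ := hball hd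
  have hζ : (ζ:ℝ) = Real.sqrt ((ξ:ℝ) * η * (1 - ξ * η)) := by
    have w3r : (ζ:ℝ) ^ 2 = (ξ:ℝ) * η * (1 - ξ * η) := by exact_mod_cast w3
    rw [← w3r, Real.sqrt_sq (by exact_mod_cast w4)]
  refine ⟨VD Y ξ η ζ, VD_edges w1 w2 w3, VD_faces w3,
    opp_of (by rw [d01, d23 w3]) (by rw [d02, d13 w3]) (by rw [d03 w3, d12]), ?_⟩
  have z0 : |(0:ℝ) - 0| < ε / 3 := by rw [sub_zero, abs_zero]; exact hε3
  intro i
  fin_cases i
  · show dist (p 0) (pt O e (VD Y ξ η ζ) 0) < ε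
    have e1 : pt O e (VD Y ξ η ζ) 0 = O + ((0:ℝ) • e 0 + (0:ℝ) • e 1 + (0:ℝ) • e 2) := by
      simp [pt, VD]
    rw [e1, q0]
    exact close_dis he O z0 z0 z0
  · show dist (p 1) (pt O e (VD Y ξ η ζ) 1) < ε
    have e1 : pt O e (VD Y ξ η ζ) 1 =
        O + (((Y:ℝ) * (ξ + η)) • e 0 + (0:ℝ) • e 1 + (0:ℝ) • e 2) := by
      simp [pt, VD]
    rw [e1, p1]
    refine close_dis he O ?_ z0 z0
    rw [r5]
    exact s1
  · show dist (p 2) (pt O e (VD Y ξ η ζ) 2) < ε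
    have e1 : pt O e (VD Y ξ η ζ) 2 =
        O + (((Y:ℝ) * ξ) • e 0 + (Y:ℝ) • e 1 + (0:ℝ) • e 2) := by
      simp [pt, VD]
    rw [e1, p2]
    refine close_dis he O ?_ s3 z0
    rw [r6]
    exact s2
  · show dist (p 3) (pt O e (VD Y ξ η ζ) 3) < ε
    have e1 : pt O e (VD Y ξ η ζ) 3 =
        O + (((Y:ℝ) * η) • e 0 + ((Y:ℝ) * (1 - 2 * ξ * η)) • e 1 + (2 * (Y:ℝ) * ζ) • e 2) := by
      simp [pt, VD]
    rw [e1, p3]
    refine close_dis he O ?_ ?_ ?_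
    · rw [r7]
      exact s4
    · rw [r8]
      exact s5
    · rw [r9, hζ]
      exact s6

/-- from the approximation of a relabelled tetrahedron to the final statement -/
lemma conclude (p : Fin 4 → E3) (hp : AffineIndependent ℝ p) (σ : Equiv.Perm (Fin 4))
    (h : ∃ (O : E3) (e : Fin 3 → E3), Orthonormal ℝ e ∧ ∀ ε : ℝ, 0 < ε →
      ∃ V : Fin 4 → Fin 3 → ℚ, (∀ i j, IsSquare (dsq V i j)) ∧
      (∀ i j l, IsSquare (her (dsq V i j) (dsq V j l) (dsq V i l))) ∧ Opp V ∧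
      ∀ i, dist ((p ∘ σ) i) (pt O e V i) < ε) (ε : ℝ) (hε : 0 < ε) :
    ∃ q : Fin 4 → E3,
      AffineIndependent ℝ q ∧
      (∀ i, dist (p i) (q i) < ε) ∧
      dist (q 0) (q 1) = dist (q 2) (q 3) ∧ dist (q 0) (q 2) = dist (q 1) (q 3) ∧
      dist (q 0) (q 3) = dist (q 1) (q 2) ∧
      (∀ i j, ∃ r : ℚ, (r : ℝ) = dist (q i) (q j)) ∧
      (∀ i j k, ∃ r : ℚ, (r : ℝ) =
        Real.sqrt ((dist (q i) (q j) + dist (q j) (q k) + dist (q i) (q k)) *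
          (-dist (q i) (q j) + dist (q j) (q k) + dist (q i) (q k)) *
          (dist (q i) (q j) - dist (q j) (q k) + dist (q i) (q k)) *
          (dist (q i) (q j) + dist (q j) (q k) - dist (q i) (q k))) / 4) ∧
      (∃ r : ℚ, (r : ℝ) =
        |Matrix.det (Matrix.of (fun a b : Fin 3 =>
          WithLp.ofLp (q a.succ - q 0) b))| / 6) := by
  obtain ⟨O, e, he, hV⟩ := h
  obtain ⟨ε1, hε1, hball⟩ := Metric.isOpen_iff.mp
    (isOpen_setOfPred_affineIndependent (𝕜 := ℝ) (E := E3) (ι := Fin 4)) p hp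
  obtain ⟨V, h1, h2, hopp, h3⟩ := hV (min ε ε1) (lt_min hε hε1)
  have hclose : ∀ i, dist (p i) (pt O e (fun i => V (σ.symm i)) i) < min ε ε1 := by
    intro i
    have := h3 (σ.symm i)
    simpa [pt] using this
  obtain ⟨k1, k2, k3⟩ := finish O e he (fun i => V (σ.symm i))
    (fun i j => h1 (σ.symm i) (σ.symm j))
    (fun i j l => h2 (σ.symm i) (σ.symm j) (σ.symm l))
  have hopp' : Opp (fun i => V (σ.symm i)) := hopp.perm σ.symm
  have hdist : ∀ i j k l : Fin 4, i ≠ j → i ≠ k → i ≠ l → j ≠ k → j ≠ l → k ≠ l →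
      dist (pt O e (fun i => V (σ.symm i)) i) (pt O e (fun i => V (σ.symm i)) j) =
        dist (pt O e (fun i => V (σ.symm i)) k) (pt O e (fun i => V (σ.symm i)) l) := by
    intro i j k l n1 n2 n3 n4 n5 n6
    refine (pow_left_inj₀ dist_nonneg dist_nonneg two_ne_zero).mp ?_
    rw [dist_pt O e he, dist_pt O e he, hopp' i j k l n1 n2 n3 n4 n5 n6]
  refine ⟨pt O e (fun i => V (σ.symm i)), ?_, fun i => lt_of_lt_of_le (hclose i) (min_le_left _ _),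
    hdist 0 1 2 3 (by decide) (by decide) (by decide) (by decide) (by decide) (by decide),
    hdist 0 2 1 3 (by decide) (by decide) (by decide) (by decide) (by decide) (by decide),
    hdist 0 3 1 2 (by decide) (by decide) (by decide) (by decide) (by decide) (by decide),
    k1, k2, k3⟩
  apply hball
  rw [Metric.mem_ball, dist_comm, dist_pi_lt_iff hε1]
  exact fun i => lt_of_lt_of_le (hclose i) (min_le_right _ _)

theorem main_dis (p : Fin 4 → E3) (hp : AffineIndependent ℝ p)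
    (h1 : dist (p 0) (p 1) = dist (p 2) (p 3)) (h2 : dist (p 0) (p 2) = dist (p 1) (p 3))
    (h3 : dist (p 0) (p 3) = dist (p 1) (p 2)) (ε : ℝ) (hε : 0 < ε) :
    ∃ q : Fin 4 → E3,
      AffineIndependent ℝ q ∧
      (∀ i, dist (p i) (q i) < ε) ∧
      dist (q 0) (q 1) = dist (q 2) (q 3) ∧ dist (q 0) (q 2) = dist (q 1) (q 3) ∧
      dist (q 0) (q 3) = dist (q 1) (q 2) ∧
      (∀ i j, ∃ r : ℚ, (r : ℝ) = dist (q i) (q j)) ∧
      (∀ i j k, ∃ r : ℚ, (r : ℝ) =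
        Real.sqrt ((dist (q i) (q j) + dist (q j) (q k) + dist (q i) (q k)) *
          (-dist (q i) (q j) + dist (q j) (q k) + dist (q i) (q k)) *
          (dist (q i) (q j) - dist (q j) (q k) + dist (q i) (q k)) *
          (dist (q i) (q j) + dist (q j) (q k) - dist (q i) (q k))) / 4) ∧
      (∃ r : ℚ, (r : ℝ) =
        |Matrix.det (Matrix.of (fun a b : Fin 3 =>
          WithLp.ofLp (q a.succ - q 0) b))| / 6) := by
  have hperm : ∀ σ : Equiv.Perm (Fin 4), AffineIndependent ℝ (p ∘ σ) :=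
    fun σ => (affineIndependent_equiv σ).mpr hp
  have key : ∀ σ : Equiv.Perm (Fin 4),
      dist (p (σ 0)) (p (σ 1)) = dist (p (σ 2)) (p (σ 3)) →
      dist (p (σ 0)) (p (σ 2)) = dist (p (σ 1)) (p (σ 3)) →
      dist (p (σ 0)) (p (σ 3)) = dist (p (σ 1)) (p (σ 2)) →
      dist (p (σ 0)) (p (σ 1)) ≤ dist (p (σ 0)) (p (σ 3)) →
      dist (p (σ 0)) (p (σ 2)) ≤ dist (p (σ 0)) (p (σ 3)) → _ :=
    fun σ a1 a2 a3 a4 a5 => conclude p hp σ (approx_dis (hperm σ) a1 a2 a3 a4 a5) ε hε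
  rcases le_total (dist (p 0) (p 1)) (dist (p 0) (p 3)) with c1 | c1
  · rcases le_total (dist (p 0) (p 2)) (dist (p 0) (p 3)) with c2 | c2
    · exact key 1 h1 h2 h3 c1 c2
    · -- swap 2 and 3
      refine key (Equiv.swap 2 3) ?_ ?_ ?_ ?_ ?_
      · show dist (p 0) (p 1) = dist (p 3) (p 2)
        rw [h1, dist_comm]
      · exact h3
      · exact h2
      · exact c1.trans c2
      · exact c2
  · rcases le_total (dist (p 0) (p 2)) (dist (p 0) (p 1)) with c2 | c2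
    · -- swap 1 and 3
      refine key (Equiv.swap 1 3) ?_ ?_ ?_ ?_ ?_
      · show dist (p 0) (p 3) = dist (p 2) (p 1)
        rw [h3, dist_comm]
      · show dist (p 0) (p 2) = dist (p 3) (p 1)
        rw [h2, dist_comm]
      · show dist (p 0) (p 1) = dist (p 3) (p 2)
        rw [h1, dist_comm]
      · exact c1
      · exact c2
    · refine key (Equiv.swap 2 3) ?_ ?_ ?_ ?_ ?_
      · show dist (p 0) (p 1) = dist (p 3) (p 2)
        rw [h1, dist_comm]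
      · exact h3
      · exact h2
      · exact c2
      · exact c1.trans c2

end Pool.Agent.RatTet.Dis
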