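import Pool.Agent.RatTet.Jacobi

set_option autoImplicit false

namespace Pool.Agent.RatTet

open Filter Topology

variable {q : ℝ}

lemma Jac.S_sq_le (J : Jac q) (u : ℝ) : J.S u ^ 2 ≤ 1 := by
  have h1 := J.hC u
  have h2 := sq_nonneg (J.C u)
  linarith

lemma Jac.den_pos (J : Jac q) (h0 : 0 ≤ q) (u v : ℝ) : 0 < 1 - q * J.S u ^ 2 * J.S v ^ 2 := by
  have hd : 0 < 1 - q * J.S u ^ 2 := by
    rw [← J.hD]
    exact pow_pos (J.Dpos u) 2
  have h1 : q * J.S u ^ 2 * J.S v ^ 2 ≤ q * J.S u ^ 2 * 1 :=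
    mul_le_mul_of_nonneg_left (J.S_sq_le v) (mul_nonneg h0 (sq_nonneg _))
  linarith

lemma const_of_hasDerivAt_zero (f : ℝ → ℝ) (hf : ∀ u, HasDerivAt f 0 u) (x y : ℝ) : f x = f y :=
  is_const_of_deriv_eq_zero (fun u => (hf u).differentiableAt) (fun u => (hf u).deriv) x y

lemma Jac.hden (J : Jac q) (c u : ℝ) :
    HasDerivAt (fun u => 1 - q * J.S u ^ 2 * J.S (c - u) ^ 2)
      (-(2 * q * J.S u * J.S (c - u) * (J.C u * J.D u * J.S (c - u)
        - J.S u * J.C (c - u) * J.D (c - u)))) u := by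
  have h1 := J.dS u
  have h2 := (J.dS (c - u)).comp_const_sub c u
  have h3 := (((h1.pow 2).const_mul q).mul (h2.pow 2)).const_sub 1
  exact h3.congr_deriv (by simp; ring)

lemma Jac.add_S (J : Jac q) (h0 : 0 ≤ q) (u v : ℝ) :
    J.S (u + v) * (1 - q * J.S u ^ 2 * J.S v ^ 2)
      = J.S u * J.C v * J.D v + J.S v * J.C u * J.D u := by
  have key : ∀ c w : ℝ, HasDerivAt (fun u => (J.S u * J.C (c - u) * J.D (c - u)
      + J.S (c - u) * J.C u * J.D u) / (1 - q * J.S u ^ 2 * J.S (c - u) ^ 2)) 0 w := by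
    intro c w
    have s1 := J.dS w
    have c1 := J.dC w
    have d1 := J.dD w
    have s2 := (J.dS (c - w)).comp_const_sub c w
    have c2 := (J.dC (c - w)).comp_const_sub c w
    have d2 := (J.dD (c - w)).comp_const_sub c w
    have hn := ((s1.mul c2).mul d2).add ((s2.mul c1).mul d1)
    have hd := J.hden c w
    have hdp := J.den_pos h0 w (c - w)
    have hq := hn.div hd hdp.ne'
    refine hq.congr_deriv ?_
    have hc1 := J.hC w
    have hd1 := J.hD w
    have hc2 := J.hC (c - w)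
    have hd2 := J.hD (c - w)
    rw [div_eq_zero_iff]
    left
    set S1 := J.S w
    set C1 := J.C w
    set D1 := J.D w
    set S2 := J.S (c - w)
    set C2 := J.C (c - w)
    set D2 := J.D (c - w)
    simp only [Pi.mul_apply, Pi.add_apply]
    linear_combination (S1 * S2 * (1 - q * S1 ^ 2 * S2 ^ 2)) * (hd2 + q * hc2 - hd1 - q * hc1)
      + 2 * q * S1 * S2 * (S2 ^ 2 * (D1 ^ 2 * hc1 + (1 - S1 ^ 2) * hd1)
        - S1 ^ 2 * (D2 ^ 2 * hc2 + (1 - S2 ^ 2) * hd2))
  have h := const_of_hasDerivAt_zero _ (key (u + v)) u 0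
  have hdp := J.den_pos h0 u v
  simp only [add_sub_cancel_left, sub_zero, J.S0, J.C0, J.D0] at h
  rw [div_eq_iff hdp.ne'] at h
  rw [h]
  ring

lemma Jac.add_C (J : Jac q) (h0 : 0 ≤ q) (u v : ℝ) :
    J.C (u + v) * (1 - q * J.S u ^ 2 * J.S v ^ 2)
      = J.C u * J.C v - J.S u * J.S v * J.D u * J.D v := by
  have key : ∀ c w : ℝ, HasDerivAt (fun u => (J.C u * J.C (c - u)
      - J.S u * J.S (c - u) * J.D u * J.D (c - u)) / (1 - q * J.S u ^ 2 * J.S (c - u) ^ 2)) 0 w := by
    intro c w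
    have s1 := J.dS w
    have c1 := J.dC w
    have d1 := J.dD w
    have s2 := (J.dS (c - w)).comp_const_sub c w
    have c2 := (J.dC (c - w)).comp_const_sub c w
    have d2 := (J.dD (c - w)).comp_const_sub c w
    have hn := (c1.mul c2).sub (((s1.mul s2).mul d1).mul d2)
    have hd := J.hden c w
    have hdp := J.den_pos h0 w (c - w)
    have hq := hn.div hd hdp.ne'
    refine hq.congr_deriv ?_
    have hc1 := J.hC w
    have hd1 := J.hD w
    have hc2 := J.hC (c - w)
    have hd2 := J.hD (c - w)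
    rw [div_eq_zero_iff]
    left
    set S1 := J.S w
    set C1 := J.C w
    set D1 := J.D w
    set S2 := J.S (c - w)
    set C2 := J.C (c - w)
    set D2 := J.D (c - w)
    simp only [Pi.mul_apply, Pi.sub_apply]
    linear_combination 2 * q * S1 * S2 * (C2 * S2 * D1 * (hc1 + S1 ^ 2 * hd2)
        - S1 * C1 * D2 * (hc2 + S2 ^ 2 * hd1))
      + (1 - q * S1 ^ 2 * S2 ^ 2) * (S1 * C2 * D1 * hd2 - C1 * S2 * D2 * hd1)
  have h := const_of_hasDerivAt_zero _ (key (u + v)) u 0
  have hdp := J.den_pos h0 u v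
  simp only [add_sub_cancel_left, sub_zero, J.S0, J.C0, J.D0] at h
  rw [div_eq_iff hdp.ne'] at h
  rw [h]
  ring

lemma Jac.add_D (J : Jac q) (h0 : 0 ≤ q) (u v : ℝ) :
    J.D (u + v) * (1 - q * J.S u ^ 2 * J.S v ^ 2)
      = J.D u * J.D v - q * J.S u * J.S v * J.C u * J.C v := by
  have key : ∀ c w : ℝ, HasDerivAt (fun u => (J.D u * J.D (c - u)
      - q * (J.S u * J.S (c - u) * J.C u * J.C (c - u))) / (1 - q * J.S u ^ 2 * J.S (c - u) ^ 2))
      0 w := by
    intro c w
    have s1 := J.dS w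
    have c1 := J.dC w
    have d1 := J.dD w
    have s2 := (J.dS (c - w)).comp_const_sub c w
    have c2 := (J.dC (c - w)).comp_const_sub c w
    have d2 := (J.dD (c - w)).comp_const_sub c w
    have hn := (d1.mul d2).sub ((((s1.mul s2).mul c1).mul c2).const_mul q)
    have hd := J.hden c w
    have hdp := J.den_pos h0 w (c - w)
    have hq := hn.div hd hdp.ne'
    refine hq.congr_deriv ?_
    have hc1 := J.hC w
    have hd1 := J.hD w
    have hc2 := J.hC (c - w)
    have hd2 := J.hD (c - w)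
    rw [div_eq_zero_iff]
    left
    set S1 := J.S w
    set C1 := J.C w
    set D1 := J.D w
    set S2 := J.S (c - w)
    set C2 := J.C (c - w)
    set D2 := J.D (c - w)
    simp only [Pi.mul_apply, Pi.sub_apply]
    linear_combination 2 * q * S1 * S2 * (C1 * S2 * D2 * (hd1 + q * S1 ^ 2 * hc2)
        - S1 * C2 * D1 * (hd2 + q * S2 ^ 2 * hc1))
      + (1 - q * S1 ^ 2 * S2 ^ 2) * (q * S1 * C1 * D2 * hc2 - q * S2 * C2 * D1 * hc1)
  have h := const_of_hasDerivAt_zero _ (key (u + v)) u 0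
  have hdp := J.den_pos h0 u v
  simp only [add_sub_cancel_left, sub_zero, J.S0, J.C0, J.D0] at h
  rw [div_eq_iff hdp.ne'] at h
  linear_combination -h

end Pool.Agent.RatTet
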