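import Pool.Agent.RatTet.Curve

set_option autoImplicit false

namespace Pool.Agent.RatTet

open Filter Topology

lemma core (h0 k0 : ℝ) (hh : 0 < h0) (hk : 0 < k0) (ε : ℝ) (hε : 0 < ε) :
    ∃ h k l : ℚ, 0 < h ∧ 0 < k ∧ h ^ 2 + k ^ 2 = l ^ 2 ∧ |(h:ℝ) - h0| < ε ∧ |(k:ℝ) - k0| < ε ∧
      ∀ m0 : ℝ, ∀ δ : ℝ, 0 < δ → ∃ m u v : ℚ, |(m:ℝ) - m0| < δ ∧ k ^ 2 + m ^ 2 = u ^ 2 ∧
        h ^ 2 + k ^ 2 + m ^ 2 = v ^ 2 := by
  set ρ0 := h0 / k0 with hρ
  have hρpos : 0 < ρ0 := div_pos hh hk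
  have hρk : ρ0 * k0 = h0 := div_mul_cancel₀ _ hk.ne'
  obtain ⟨a, ha0, ha1, hF, hρa⟩ := exists_good_a ρ0 (min 1 (ε / (2 * k0))) hρpos
    (lt_min one_pos (by positivity))
  have hρ1 := lt_of_lt_of_le hρa (min_le_left _ _)
  have hρ2 := lt_of_lt_of_le hρa (min_le_right _ _)
  set ρ : ℚ := (1 - a ^ 2) / (2 * a) with hρdef
  have hρcast : ((1 - a ^ 2) / (2 * a) : ℝ) = (ρ : ℝ) := by rw [hρdef]; push_cast; rfl
  rw [hρcast] at hρ1 hρ2
  have hρpos' : 0 < ρ := by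
    rw [hρdef]
    apply div_pos _ (by linarith)
    nlinarith
  -- choose k
  set η := min (min ε k0) (ε / (2 * (ρ0 + 1))) with hη
  have hηpos : 0 < η := lt_min (lt_min hε hk) (by positivity)
  obtain ⟨k, hk1, hk2⟩ := exists_rat_btwn (show k0 - η < k0 + η by linarith)
  have hkk : |(k:ℝ) - k0| < η := by rw [abs_lt]; constructor <;> linarith
  have hkε : |(k:ℝ) - k0| < ε := lt_of_lt_of_le hkk (le_trans (min_le_left _ _) (min_le_left _ _))
  have hkk0 : |(k:ℝ) - k0| < k0 := lt_of_lt_of_le hkk (le_trans (min_le_left _ _) (min_le_right _ _))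
  have hkρ : |(k:ℝ) - k0| < ε / (2 * (ρ0 + 1)) := lt_of_lt_of_le hkk (min_le_right _ _)
  have hkpos : (0:ℝ) < k := by
    have := (abs_lt.mp hkk0).1
    linarith
  have hkposq : 0 < k := by exact_mod_cast hkpos
  refine ⟨k * ρ, k, k * ((1 + a ^ 2) / (2 * a)), by positivity, hkposq, ?_, ?_, hkε, ?_⟩
  · rw [hρdef]
    field_simp
    ring
  · push_cast
    have e : (k:ℝ) * ρ - h0 = (k - k0) * ρ + k0 * (ρ - ρ0) := by rw [← hρk]; ring
    rw [e]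
    have hρabs : |(ρ:ℝ)| < ρ0 + 1 := by
      have h1 : (0:ℝ) < ρ := by exact_mod_cast hρpos'
      rw [abs_of_pos h1]
      have := (abs_lt.mp hρ1).2
      linarith
    calc |((k:ℝ) - k0) * ρ + k0 * (ρ - ρ0)| ≤ |((k:ℝ) - k0) * ρ| + |k0 * (ρ - ρ0)| := abs_add_le _ _
      _ = |(k:ℝ) - k0| * |(ρ:ℝ)| + k0 * |(ρ:ℝ) - ρ0| := by rw [abs_mul, abs_mul, abs_of_pos hk]
      _ < ε / (2 * (ρ0 + 1)) * (ρ0 + 1) + k0 * (ε / (2 * k0)) := by
          apply add_lt_add_of_le_of_lt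
          · exact mul_le_mul hkρ.le hρabs.le (abs_nonneg _) (by positivity)
          · exact mul_lt_mul_of_pos_left hρ2 hk
      _ = ε := by field_simp; ring
  · intro m0 δ hδ
    obtain ⟨s, c, d, h1, h2, hc, h3⟩ := hF (m0 / k) (δ / k) (by positivity)
    refine ⟨k * (s / c), k / c, k * ((1 + a ^ 2) / (2 * a)) * (d / c), ?_, ?_, ?_⟩
    · push_cast
      have e : (k:ℝ) * (s / c) - m0 = k * (s / c - m0 / k) := by
        field_simp
      rw [e, abs_mul, abs_of_pos hkpos]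
      calc (k:ℝ) * |(s / c : ℝ) - m0 / k| < k * (δ / k) := mul_lt_mul_of_pos_left h3 hkpos
        _ = δ := by field_simp
    · have e : k ^ 2 + (k * (s / c)) ^ 2 = k ^ 2 * (s ^ 2 + c ^ 2) / c ^ 2 := by
        field_simp
        ring
      rw [e, h1]
      ring
    · have ha2 : (1 + a ^ 2) ≠ 0 := by positivity
      have hr : (d / c) ^ 2 = 1 + (1 - ((1 - a ^ 2) / (1 + a ^ 2)) ^ 2) * (s / c) ^ 2 := by
        have hc2 : c ^ 2 ≠ 0 := pow_ne_zero 2 hc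
        rw [div_pow d c, div_pow s c, div_eq_iff hc2, add_mul, mul_assoc, div_mul_cancel₀ _ hc2]
        linear_combination h2 - h1
      have hκ : ((1 + a ^ 2) / (2 * a)) ^ 2 * (1 - ((1 - a ^ 2) / (1 + a ^ 2)) ^ 2) = 1 := by
        field_simp
        ring
      have hρ3 : ρ ^ 2 + 1 = ((1 + a ^ 2) / (2 * a)) ^ 2 := by
        rw [hρdef]
        field_simp
        ring
      rw [mul_pow (k * ((1 + a ^ 2) / (2 * a))), hr]
      linear_combination k ^ 2 * hρ3 - k ^ 2 * (s / c) ^ 2 * hκ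

end Pool.Agent.RatTet
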