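import Pool.Agent.RatTet.Padic

set_option autoImplicit false

namespace Pool.Agent.RatTet

open Filter Topology

/-- The fibre over the shape parameter `a` has dense rational points. -/
def FiberDense (a : ℚ) : Prop :=
  ∀ x0 : ℝ, ∀ ε : ℝ, 0 < ε → ∃ s c d : ℚ, s ^ 2 + c ^ 2 = 1 ∧
    d ^ 2 + ((1 - a ^ 2) / (1 + a ^ 2)) ^ 2 * s ^ 2 = 1 ∧ c ≠ 0 ∧ |(s / c : ℝ) - x0| < ε

lemma fiberDense_of_point (a s c d : ℚ) (ha0 : 0 < a) (ha1 : a < 1)
    (hsc : s ^ 2 + c ^ 2 = 1) (hd : d ^ 2 + ((1 - a ^ 2) / (1 + a ^ 2)) ^ 2 * s ^ 2 = 1)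
    (hd0 : 0 < d) (hs0 : s ≠ 0) (hNq : N (((1 - a ^ 2) / (1 + a ^ 2)) ^ 2) ≤ 1)
    (hNs : N s ≤ 1 / 3) (hNc : N (c - 1) < 1) (hNd : N (d - 1) < 1) : FiberDense a := by
  intro x0 ε hε
  set q : ℚ := ((1 - a ^ 2) / (1 + a ^ 2)) ^ 2 with hq
  have hq0 : 0 ≤ q := sq_nonneg _
  have hq1 : q < 1 := by
    have h1 : 0 < 1 + a ^ 2 := by positivity
    have h2 : 0 ≤ (1 - a ^ 2) / (1 + a ^ 2) := by
      apply div_nonneg _ h1.le
      nlinarith
    have h3 : (1 - a ^ 2) / (1 + a ^ 2) < 1 := by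
      rw [div_lt_one h1]
      nlinarith [sq_pos_of_pos ha0]
    rw [hq]
    nlinarith
  obtain ⟨J⟩ := exists_Jac (q := (q:ℝ)) (by exact_mod_cast hq0) (by exact_mod_cast hq1)
  obtain ⟨u, hus, huc⟩ := J.surj s c (by exact_mod_cast hsc)
  have hud : J.D u = d := by
    have h1 := J.hD u
    rw [hus] at h1
    have h2 : (d:ℝ) ^ 2 + q * (s:ℝ) ^ 2 = 1 := by exact_mod_cast hd
    have h3 : J.D u ^ 2 = (d:ℝ) ^ 2 := by linarith
    have h4 := J.Dpos u
    have h5 : (0:ℝ) < d := by exact_mod_cast hd0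
    exact (pow_left_inj₀ h4.le h5.le two_ne_zero).mp h3
  have hmem : u ∈ grp q hq0 J := ⟨s, c, d, hus, huc, hud⟩
  exact fiber_dense hq0 J u hmem
    (fun n hn => infinite_order hq0 J hNq n hn u s c d hus huc hud hs0 hNs hNc hNd) x0 ε hε

lemma P_mul_right {x y : ℚ} (hx : N x ≤ 1 / 3) (hy : N y ≤ 1) : N (x * y) ≤ 1 / 3 := by
  simpa using N_mul_le hx hy

lemma I_mul {x y : ℚ} (hx : N x ≤ 1) (hy : N y ≤ 1) : N (x * y) ≤ 1 := by
  simpa using N_mul_le hx hy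

lemma I_of_P {x : ℚ} (hx : N x ≤ 1 / 3) : N x ≤ 1 := by linarith

lemma I_nat (n : ℕ) [n.AtLeastTwo] : N (OfNat.ofNat n : ℚ) ≤ 1 := by
  have := N_nat_le n
  exact_mod_cast this

lemma I_one : N 1 ≤ 1 := by rw [N_one]

lemma N_of_congr {x y : ℚ} (h : N (x - y) ≤ 1 / 3) (hy : N y = 1) : N x = 1 := by
  rw [N_eq_of_sub (x := x) (y := y) (by rw [hy]; linarith), hy]

/-- numerator and denominator of the parametrisation -/
def nu (L : ℚ) : ℚ := 3 + 6 * L ^ 2 - L ^ 4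
def mu (L : ℚ) : ℚ := 3 * L ^ 4 + 6 * L ^ 2 - 1

lemma alg_d (a b w : ℚ) (hw2 : w ^ 2 = (a ^ 2 + b ^ 2) * (1 + a ^ 2 * b ^ 2)) :
    (2 * w / ((1 + a ^ 2) * (1 + b ^ 2))) ^ 2
      + ((1 - a ^ 2) / (1 + a ^ 2)) ^ 2 * ((1 - b ^ 2) / (1 + b ^ 2)) ^ 2 = 1 := by
  have ha2 : 0 < 1 + a ^ 2 := by positivity
  have hb2 : 0 < 1 + b ^ 2 := by positivity
  have h3 : ((1 + a ^ 2) * (1 + b ^ 2)) ^ 2 ≠ 0 := by positivity
  have e : (2 * w / ((1 + a ^ 2) * (1 + b ^ 2))) ^ 2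
      + ((1 - a ^ 2) / (1 + a ^ 2)) ^ 2 * ((1 - b ^ 2) / (1 + b ^ 2)) ^ 2
      = ((2 * w) ^ 2 + ((1 - a ^ 2) * (1 - b ^ 2)) ^ 2) / ((1 + a ^ 2) * (1 + b ^ 2)) ^ 2 := by
    field_simp
  rw [e, div_eq_one_iff_eq h3]
  linear_combination 4 * hw2

lemma fiberDense_param (L : ℚ) (h1 : 1 < L) (hL : N (L - 1) ≤ 1 / 3) (hpos : 0 < nu L) :
    0 < nu L / mu L ∧ nu L / mu L < 1 ∧ FiberDense (nu L / mu L) := by
  have hL0 : 0 < L := by linarith
  have hmu : 0 < mu L := by unfold mu; nlinarith [sq_nonneg L, sq_nonneg (L ^ 2)]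
  have hlt : nu L < mu L := by
    unfold mu nu
    have h2 : 1 < L ^ 2 := by nlinarith
    have h4 : L ^ 2 < L ^ 4 := by nlinarith
    nlinarith
  have hLn : nu L * L < mu L := by
    have e : mu L - nu L * L = (L - 1) * (L ^ 4 + 4 * L ^ 3 - 2 * L ^ 2 + 4 * L + 1) := by
      unfold mu nu; ring
    have h3 : 0 < L ^ 4 + 4 * L ^ 3 - 2 * L ^ 2 + 4 * L + 1 := by
      have h4 : L ^ 2 < L ^ 3 := by nlinarith [mul_pos (pow_pos hL0 2) (sub_pos.mpr h1)]
      nlinarith [pow_pos hL0 4, pow_pos hL0 2]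
    have h5 : 0 < (L - 1) * (L ^ 4 + 4 * L ^ 3 - 2 * L ^ 2 + 4 * L + 1) :=
      mul_pos (by linarith) h3
    linarith
  have ha0 : 0 < nu L / mu L := div_pos hpos hmu
  have ha1 : nu L / mu L < 1 := (div_lt_one hmu).mpr hlt
  refine ⟨ha0, ha1, ?_⟩
  set a : ℚ := nu L / mu L with ha
  set b : ℚ := L * a with hb
  have hamu : a * mu L = nu L := div_mul_cancel₀ _ hmu.ne'
  have hb0 : 0 < b := mul_pos hL0 ha0
  have hb1 : b < 1 := by
    rw [hb, ha, ← mul_div_assoc, div_lt_one hmu]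
    linarith
  -- integrality
  have iL : N L ≤ 1 := by
    have e : L = (L - 1) + 1 := by ring
    rw [e]
    exact N_add (I_of_P hL) I_one
  have iL2 : N (L ^ 2) ≤ 1 := by rw [pow_two]; exact I_mul iL iL
  have imu : N (mu L) = 1 := by
    apply N_of_congr (y := 8)
    · have e : mu L - 8 = (L - 1) * (3 * (L + 1) * (L ^ 2 + 3)) := by unfold mu; ring
      rw [e]
      exact P_mul_right hL (I_mul (I_mul (I_nat 3) (N_add iL I_one)) (N_add iL2 (I_nat 3)))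
    · have : (8:ℚ) = 2 ^ 3 := by norm_num
      rw [this, N_pow, N_two]
      norm_num
  have pa : N (a - 1) ≤ 1 / 3 := by
    have e : a - 1 = ((L - 1) * (-(4 * (L + 1) * (L ^ 2 + 1)))) / mu L := by
      rw [eq_div_iff hmu.ne', sub_mul, hamu]
      unfold mu nu
      ring
    rw [e, N_div, imu, div_one]
    apply P_mul_right hL
    rw [N_neg]
    exact I_mul (I_mul (I_nat 4) (N_add iL I_one)) (N_add iL2 I_one)
  have ia : N a ≤ 1 := by
    have e : a = (a - 1) + 1 := by ring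
    rw [e]
    exact N_add (I_of_P pa) I_one
  have pb : N (b - 1) ≤ 1 / 3 := by
    have e : b - 1 = (L - 1) * a + (a - 1) := by rw [hb]; ring
    rw [e]
    exact N_add (P_mul_right hL ia) pa
  have ib : N b ≤ 1 := by rw [hb]; exact I_mul iL ia
  have na2 : N (1 + a ^ 2) = 1 := by
    apply N_of_congr (y := 2) _ N_two
    have e : 1 + a ^ 2 - 2 = (a - 1) * (a + 1) := by ring
    rw [e]
    exact P_mul_right pa (N_add ia I_one)
  have nb2 : N (1 + b ^ 2) = 1 := by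
    apply N_of_congr (y := 2) _ N_two
    have e : 1 + b ^ 2 - 2 = (b - 1) * (b + 1) := by ring
    rw [e]
    exact P_mul_right pb (N_add ib I_one)
  have ha2 : 0 < 1 + a ^ 2 := by positivity
  have hb2 : 0 < 1 + b ^ 2 := by positivity
  -- the square root
  set Y : ℚ := mu L ^ 2 + 8 * L ^ 2 * (1 - L ^ 2) * mu L + 16 * L ^ 2 * (3 + L ^ 2) * (1 - L ^ 2) ^ 2
    with hY
  have hYpos : 0 < Y := by
    have e : Y = (mu L - 4 * L ^ 2 * (L ^ 2 - 1)) ^ 2 + 48 * L ^ 2 * (L ^ 2 - 1) ^ 2 := by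
      rw [hY]; ring
    have h2 : 0 < L ^ 2 - 1 := by nlinarith
    rw [e]
    positivity
  have key : (1 + L ^ 2) * Y ^ 2 = mu L ^ 4 + L ^ 2 * nu L ^ 4 := by
    rw [hY]
    unfold mu nu
    ring
  set y : ℚ := Y / mu L ^ 2 with hy
  have hymu : y * mu L ^ 2 = Y := div_mul_cancel₀ _ (by positivity)
  have hypos : 0 < y := div_pos hYpos (by positivity)
  have hy2 : (1 + L ^ 2) * y ^ 2 = 1 + L ^ 2 * a ^ 4 := by
    have hm4 : mu L ^ 4 ≠ 0 := by positivity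
    apply mul_right_cancel₀ hm4
    have e1 : (1 + L ^ 2) * y ^ 2 * mu L ^ 4 = (1 + L ^ 2) * (y * mu L ^ 2) ^ 2 := by ring
    have e2 : (1 + L ^ 2 * a ^ 4) * mu L ^ 4 = mu L ^ 4 + L ^ 2 * (a * mu L) ^ 4 := by ring
    rw [e1, e2, hymu, hamu, key]
  have py : N (y - 1) ≤ 1 / 3 := by
    have e : y - 1 = ((L - 1) * (-(8 * L ^ 2 * (L + 1) * mu L)
        + 16 * L ^ 2 * (3 + L ^ 2) * ((L - 1) * (L + 1) * (L + 1)))) / mu L ^ 2 := by
      rw [eq_div_iff (by positivity), sub_mul, hymu, hY]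
      ring
    rw [e, N_div, N_pow, imu]
    have i1 : N (mu L) ≤ 1 := imu.le
    have i2 : N (L - 1) ≤ 1 := I_of_P hL
    have i3 : N (L + 1) ≤ 1 := N_add iL I_one
    have i4 : N (3 + L ^ 2) ≤ 1 := N_add (I_nat 3) iL2
    simp only [one_pow, div_one]
    apply P_mul_right hL
    apply N_add
    · rw [N_neg]
      exact I_mul (I_mul (I_mul (I_nat 8) iL2) i3) i1
    · exact I_mul (I_mul (I_mul (I_nat 16) iL2) i4) (I_mul (I_mul i2 i3) i3)
  have iy : N y ≤ 1 := by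
    have e : y = (y - 1) + 1 := by ring
    rw [e]
    exact N_add (I_of_P py) I_one
  set w : ℚ := a * (1 + L ^ 2) * y with hw
  have hwpos : 0 < w := by positivity
  have hw2 : w ^ 2 = (a ^ 2 + b ^ 2) * (1 + a ^ 2 * b ^ 2) := by
    have e1 : w ^ 2 = a ^ 2 * (1 + L ^ 2) * ((1 + L ^ 2) * y ^ 2) := by rw [hw]; ring
    rw [e1, hy2, hb]
    ring
  have pw : N (w - 2) ≤ 1 / 3 := by
    have e : w - 2 = (a - 1) * ((1 + L ^ 2) * y) + (L - 1) * ((L + 1) * y) + (y - 1) * 2 := by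
      rw [hw]; ring
    rw [e]
    apply N_add (N_add _ _) _
    · exact P_mul_right pa (I_mul (N_add I_one iL2) iy)
    · exact P_mul_right hL (I_mul (N_add iL I_one) iy)
    · exact P_mul_right py (I_nat 2)
  apply fiberDense_of_point a ((1 - b ^ 2) / (1 + b ^ 2)) (2 * b / (1 + b ^ 2))
    (2 * w / ((1 + a ^ 2) * (1 + b ^ 2))) ha0 ha1
  · rw [div_pow, div_pow, ← add_div, div_eq_one_iff_eq (by positivity)]
    ring
  · exact alg_d a b w hw2
  · positivity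
  · have : 1 - b ^ 2 ≠ 0 := by
      have : 0 < 1 - b ^ 2 := by nlinarith
      exact this.ne'
    exact div_ne_zero this hb2.ne'
  · rw [N_pow, N_div, na2, div_one]
    have : N (1 - a ^ 2) ≤ 1 := by
      have e : 1 - a ^ 2 = (1 - a) * (1 + a) := by ring
      rw [e]
      exact I_mul (N_sub I_one ia) (N_add I_one ia)
    exact pow_le_one₀ (N_nonneg _) this
  · rw [N_div, nb2, div_one]
    have e : 1 - b ^ 2 = (b - 1) * (-(b + 1)) := by ring
    rw [e]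
    exact P_mul_right pb (by rw [N_neg]; exact N_add ib I_one)
  · have e : 2 * b / (1 + b ^ 2) - 1 = ((b - 1) * (-(b - 1))) / (1 + b ^ 2) := by
      rw [eq_div_iff hb2.ne', sub_mul, div_mul_cancel₀ _ hb2.ne']
      ring
    rw [e, N_div, nb2, div_one]
    have := P_mul_right (x := b - 1) (y := -(b - 1)) pb (by rw [N_neg]; exact I_of_P pb)
    linarith
  · have h3 : (1 + a ^ 2) * (1 + b ^ 2) ≠ 0 := by positivity
    have e : 2 * w / ((1 + a ^ 2) * (1 + b ^ 2)) - 1 =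
        ((w - 2) * 2 - ((a - 1) * ((a + 1) * (1 + b ^ 2)) + (b - 1) * ((b + 1) * 2)))
          / ((1 + a ^ 2) * (1 + b ^ 2)) := by
      rw [eq_div_iff h3, sub_mul, div_mul_cancel₀ _ h3]
      ring
    rw [e, N_div, N_mul, na2, nb2, one_mul, div_one]
    have : N ((w - 2) * 2 - ((a - 1) * ((a + 1) * (1 + b ^ 2)) + (b - 1) * ((b + 1) * 2))) ≤ 1 / 3 := by
      apply N_sub (P_mul_right pw (I_nat 2))
      apply N_add
      · exact P_mul_right pa (I_mul (N_add ia I_one) nb2.le)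
      · exact P_mul_right pb (I_mul (N_add ib I_one) (I_nat 2))
    linarith

/-- rationals congruent to 1 modulo 3 are dense -/
lemma exists_L (x y : ℝ) (hxy : x < y) : ∃ L : ℚ, x < L ∧ (L:ℝ) < y ∧ N (L - 1) ≤ 1 / 3 := by
  obtain ⟨n, hn⟩ := pow_unbounded_of_one_lt (3 / (y - x)) (one_lt_two : (1:ℝ) < 2)
  have h2 : (0:ℝ) < 2 ^ n := by positivity
  have hxy' : 0 < y - x := by linarith
  set j : ℤ := ⌊(x - 1) * 2 ^ n / 3⌋ + 1 with hj
  have hj1 : (x - 1) * 2 ^ n / 3 < j := by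
    rw [hj]; push_cast; exact Int.lt_floor_add_one _
  have hj2 : (j:ℝ) ≤ (x - 1) * 2 ^ n / 3 + 1 := by
    rw [hj]; push_cast
    have := Int.floor_le ((x - 1) * 2 ^ n / 3)
    linarith
  refine ⟨1 + 3 * j / 2 ^ n, ?_, ?_, ?_⟩
  · push_cast
    have : x - 1 < 3 * j / 2 ^ n := by
      rw [lt_div_iff₀ h2]
      linarith
    linarith
  · push_cast
    rw [div_lt_iff₀ hxy'] at hn
    have : 3 * (j:ℝ) / 2 ^ n < y - 1 := by
      rw [div_lt_iff₀ h2]
      nlinarith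
    linarith
  · have e : (1 + 3 * (j:ℚ) / 2 ^ n - 1) = 3 * (j / 2 ^ n) := by ring
    rw [e, N_mul, N_three, N_div, N_pow, N_two]
    have : N (j:ℚ) ≤ 1 := padicNorm.of_int (p := 3) j
    have h4 := N_nonneg (j:ℚ)
    simp only [one_pow, div_one]
    linarith

lemma exists_good_a (ρ0 ε : ℝ) (hρ : 0 < ρ0) (hε : 0 < ε) :
    ∃ a : ℚ, 0 < a ∧ a < 1 ∧ FiberDense a ∧ |((1 - a ^ 2) / (2 * a) : ℝ) - ρ0| < ε := by
  -- target value of a
  set r := Real.sqrt (1 + ρ0 ^ 2) with hr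
  have hr2 : r ^ 2 = 1 + ρ0 ^ 2 := Real.sq_sqrt (by positivity)
  have hrpos : 0 < r := Real.sqrt_pos.mpr (by positivity)
  have hrρ : ρ0 < r := by nlinarith
  have hr1 : r < ρ0 + 1 := by nlinarith
  set a0 := r - ρ0 with ha0
  have ha0pos : 0 < a0 := by linarith
  have ha0lt : a0 < 1 := by linarith
  have hval : (1 - a0 ^ 2) / (2 * a0) = ρ0 := by
    rw [div_eq_iff (by positivity), ha0]
    linear_combination -hr2
  let f : ℝ → ℝ := fun x => (3 + 6 * x ^ 2 - x ^ 4) / (3 * x ^ 4 + 6 * x ^ 2 - 1)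
  have hden : ∀ x : ℝ, 1 ≤ x → 3 * x ^ 4 + 6 * x ^ 2 - 1 ≠ 0 := by
    intro x hx
    have h1 : 1 ≤ x ^ 2 := by nlinarith
    have h2 : 0 ≤ x ^ 4 := by positivity
    have : 0 < 3 * x ^ 4 + 6 * x ^ 2 - 1 := by nlinarith
    exact this.ne'
  have hfc : ContinuousOn f (Set.Icc 1 3) := by
    apply ContinuousOn.div (by fun_prop) (by fun_prop)
    intro x hx
    exact hden x hx.1
  have hsub := intermediate_value_Ioo' (by norm_num : (1:ℝ) ≤ 3) hfc
  have hmem : a0 ∈ Set.Ioo (f 3) (f 1) := by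
    constructor
    · simp only [f]; norm_num; linarith
    · simp only [f]; norm_num; linarith
  obtain ⟨x, ⟨hx1, hx3⟩, hfx⟩ := hsub hmem
  have hcf : ContinuousAt f x := by
    apply ContinuousAt.div (by fun_prop) (by fun_prop)
    exact hden x hx1.le
  have hcg : ContinuousAt (fun t => (1 - f t ^ 2) / (2 * f t)) x := by
    apply ContinuousAt.div
    · exact continuousAt_const.sub (hcf.pow 2)
    · exact continuousAt_const.mul hcf
    · rw [hfx]; positivity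
  have e1 : ∀ᶠ t in 𝓝 x, |(1 - f t ^ 2) / (2 * f t) - ρ0| < ε := by
    have h := hcg.tendsto
    simp only [hfx, hval] at h
    filter_upwards [Metric.tendsto_nhds.mp h ε hε] with t ht
    simpa [Real.dist_eq] using ht
  have e2 : ∀ᶠ t in 𝓝 x, 0 < f t := hcf.eventually (lt_mem_nhds (by rw [hfx]; exact ha0pos))
  have e3 : ∀ᶠ t in 𝓝 x, 1 < t := lt_mem_nhds hx1
  obtain ⟨δ, hδ, hball⟩ := Metric.eventually_nhds_iff.mp (e1.and (e2.and e3))
  obtain ⟨L, hL1, hL2, hLN⟩ := exists_L (x - δ) (x + δ) (by linarith)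
  have hd : dist (L:ℝ) x < δ := by
    rw [Real.dist_eq, abs_lt]
    constructor <;> linarith
  obtain ⟨k1, k2, k3⟩ := hball hd
  have hL1' : 1 < L := by exact_mod_cast k3
  have hfL : f L = ((nu L / mu L : ℚ) : ℝ) := by
    simp only [f, nu, mu]
    push_cast
    rfl
  have hmu : 0 < mu L := by unfold mu; nlinarith [sq_nonneg L, sq_nonneg (L ^ 2)]
  have hnu : 0 < nu L := by
    rw [hfL] at k2
    have : 0 < nu L / mu L := by exact_mod_cast k2
    exact (div_pos_iff_of_pos_right hmu).mp this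
  obtain ⟨g1, g2, g3⟩ := fiberDense_param L hL1' hLN hnu
  refine ⟨nu L / mu L, g1, g2, g3, ?_⟩
  rw [hfL] at k1
  exact k1

end Pool.Agent.RatTet
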