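import Pool.Agent.RatTet.DisPoint

set_option autoImplicit false

/-!
# Density of the rational shapes of disphenoids
-/

namespace Pool.Agent.RatTet.Dis

open Filter Topology

/-- the half angle parametrisation -/
lemma exists_half (x : ℝ) (hx : 0 < x) : ∃ P : ℝ, 1 < P ∧ 2 * P / (P ^ 2 - 1) = x ∧
    (x < 4 / 3 → 2 < P) := by
  set r := Real.sqrt (1 + x ^ 2) with hr
  have hr2 : r ^ 2 = 1 + x ^ 2 := Real.sq_sqrt (by positivity)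
  have hr0 : 0 < r := Real.sqrt_pos.mpr (by positivity)
  have hrx : x < r := by nlinarith
  refine ⟨(1 + r) / x, ?_, ?_, ?_⟩
  · rw [lt_div_iff₀ hx]
    linarith
  · have h1 : ((1 + r) / x) ^ 2 - 1 = 2 * (1 + r) / x ^ 2 := by
      rw [div_pow, eq_div_iff (by positivity), sub_mul, div_mul_cancel₀ _ (by positivity)]
      linear_combination hr2
    rw [h1]
    have h2 : (1 + r) ≠ 0 := by positivity
    field_simp
  · intro h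
    rw [lt_div_iff₀ hx]
    by_contra hcon
    have h1 : r ≤ 2 * x - 1 := by linarith
    have h2 : r ^ 2 ≤ (2 * x - 1) ^ 2 := pow_le_pow_left₀ hr0.le h1 2
    nlinarith

lemma exists_kappa (P0 : ℝ) (hP : 2 < P0) (δ : ℝ) (hδ : 0 < δ) :
    ∃ κ : ℚ, 0 < κ ∧ κ < 1 ∧ N κ ≤ 1 / 3 ∧ |((PK κ : ℚ) : ℝ) - P0| < δ := by
  set M0 := (P0 - 2) / (P0 + 3) with hM0
  have hM0pos : 0 < M0 := div_pos (by linarith) (by linarith)
  have hM1 : M0 < 1 := by rw [hM0, div_lt_one (by linarith)]; linarith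
  set k0 := Real.sqrt M0 with hk0
  have hk2 : k0 ^ 2 = M0 := Real.sq_sqrt hM0pos.le
  have hk0pos : 0 < k0 := Real.sqrt_pos.mpr hM0pos
  have hk01 : k0 < 1 := by nlinarith
  let f : ℝ → ℝ := fun x => (2 + 3 * x ^ 2) / (1 - x ^ 2)
  have hne : 1 - k0 ^ 2 ≠ 0 := by rw [hk2]; linarith
  have hfc : ContinuousAt f k0 := by
    have c1 : ContinuousAt (fun x : ℝ => 2 + 3 * x ^ 2) k0 := by fun_prop
    have c2 : ContinuousAt (fun x : ℝ => 1 - x ^ 2) k0 := by fun_prop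
    exact c1.div c2 hne
  have hval : f k0 = P0 := by
    show (2 + 3 * k0 ^ 2) / (1 - k0 ^ 2) = P0
    rw [div_eq_iff hne, hk2, hM0]
    have : P0 + 3 ≠ 0 := by linarith
    field_simp
    ring
  have e1 : ∀ᶠ t in 𝓝 k0, |f t - P0| < δ := by
    have h := hfc.tendsto
    rw [hval] at h
    filter_upwards [Metric.tendsto_nhds.mp h δ hδ] with t ht
    exact ht
  have e2 : ∀ᶠ t in 𝓝 k0, 0 < t := lt_mem_nhds hk0pos
  have e3 : ∀ᶠ t in 𝓝 k0, t < 1 := gt_mem_nhds hk01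
  obtain ⟨ρ, hρ, hball⟩ := Metric.eventually_nhds_iff.mp (e1.and (e2.and e3))
  obtain ⟨L, hL1, hL2, hLN⟩ := exists_L (k0 + 1 - ρ) (k0 + 1 + ρ) (by linarith)
  have hd : dist ((L - 1 : ℚ) : ℝ) k0 < ρ := by
    push_cast
    rw [Real.dist_eq, abs_lt]
    constructor <;> linarith
  obtain ⟨k1, k2, k3⟩ := hball hd
  refine ⟨L - 1, by exact_mod_cast k2, by exact_mod_cast k3, hLN, ?_⟩
  have : ((PK (L - 1) : ℚ) : ℝ) = f ((L - 1 : ℚ) : ℝ) := by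
    simp only [f, PK]
    push_cast
    rfl
  rw [this]
  exact k1

lemma key_identity (P Q : ℚ) (hP : P ^ 2 - 1 ≠ 0) (hQ : Q ^ 2 - 1 ≠ 0) (w : ℚ)
    (hw : w ^ 2 = P * Q * ((P - 1) * Q - (P + 1)) * ((P + 1) * Q + (P - 1))) :
    (2 * w / ((P ^ 2 - 1) * (Q ^ 2 - 1))) ^ 2 =
      2 * P / (P ^ 2 - 1) * (2 * Q / (Q ^ 2 - 1)) *
        (1 - 2 * P / (P ^ 2 - 1) * (2 * Q / (Q ^ 2 - 1))) := by
  rw [div_pow, mul_pow, hw]
  have h1 : 1 - 2 * P / (P ^ 2 - 1) * (2 * Q / (Q ^ 2 - 1))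
      = ((P ^ 2 - 1) * (Q ^ 2 - 1) - 4 * P * Q) / ((P ^ 2 - 1) * (Q ^ 2 - 1)) := by
    rw [eq_div_iff (mul_ne_zero hP hQ), sub_mul, div_mul_div_comm, div_mul_cancel₀ _
      (mul_ne_zero hP hQ)]
    ring
  rw [h1, div_mul_div_comm, div_mul_div_comm]
  congr 1
  · ring
  · ring

lemma core_dis (ξ0 η0 : ℝ) (h1 : 0 < ξ0) (h2 : ξ0 < 4 / 3) (h3 : 0 < η0) (h4 : ξ0 * η0 < 1)
    (δ : ℝ) (hδ : 0 < δ) :
    ∃ ξ η σ τ ζ : ℚ, 1 + ξ ^ 2 = σ ^ 2 ∧ 1 + η ^ 2 = τ ^ 2 ∧ ζ ^ 2 = ξ * η * (1 - ξ * η) ∧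
      0 ≤ ζ ∧ |(ξ:ℝ) - ξ0| < δ ∧ |(η:ℝ) - η0| < δ := by
  obtain ⟨P0, hP1, hPv, hP2⟩ := exists_half ξ0 h1
  obtain ⟨Q0, hQ1, hQv, -⟩ := exists_half η0 h3
  have hP2 := hP2 h2
  have hPn : (P0:ℝ) ^ 2 - 1 ≠ 0 := by nlinarith
  have hQn : (Q0:ℝ) ^ 2 - 1 ≠ 0 := by nlinarith
  have hPpos : 0 < P0 ^ 2 - 1 := by nlinarith
  have hQpos : 0 < Q0 ^ 2 - 1 := by nlinarith
  have hcond : P0 + 1 < (P0 - 1) * Q0 := by
    have hh : 2 * P0 / (P0 ^ 2 - 1) * (2 * Q0 / (Q0 ^ 2 - 1)) < 1 := by rw [hPv, hQv]; exact h4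
    rw [div_mul_div_comm, div_lt_one (mul_pos hPpos hQpos)] at hh
    have h5 : 0 < ((P0 - 1) * Q0 - (P0 + 1)) * ((P0 + 1) * Q0 + (P0 - 1)) := by nlinarith
    have h6 : 0 < (P0 + 1) * Q0 + (P0 - 1) := by nlinarith
    have := (pos_iff_pos_of_mul_pos h5).mpr h6
    linarith
  have hgP : ContinuousAt (fun x : ℝ => 2 * x / (x ^ 2 - 1)) P0 :=
    ContinuousAt.div (by fun_prop) (by fun_prop) hPn
  have hgQ : ContinuousAt (fun x : ℝ => 2 * x / (x ^ 2 - 1)) Q0 :=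
    ContinuousAt.div (by fun_prop) (by fun_prop) hQn
  have a1 : ∀ᶠ t in 𝓝 P0, |2 * t / (t ^ 2 - 1) - ξ0| < δ := by
    have h := hgP.tendsto
    rw [hPv] at h
    filter_upwards [Metric.tendsto_nhds.mp h δ hδ] with t ht
    exact ht
  have a2 : ∀ᶠ t in 𝓝 P0, 1 < t := lt_mem_nhds hP1
  have a3 : ∀ᶠ t in 𝓝 P0, 0 < (t - 1) * Q0 - (t + 1) := by
    have hc : ContinuousAt (fun t : ℝ => (t - 1) * Q0 - (t + 1)) P0 := by fun_prop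
    exact hc.eventually (lt_mem_nhds (by linarith))
  have b1 : ∀ᶠ t in 𝓝 Q0, |2 * t / (t ^ 2 - 1) - η0| < δ := by
    have h := hgQ.tendsto
    rw [hQv] at h
    filter_upwards [Metric.tendsto_nhds.mp h δ hδ] with t ht
    exact ht
  have b2 : ∀ᶠ t in 𝓝 Q0, 1 < t := lt_mem_nhds hQ1
  obtain ⟨ρ, hρ, hball⟩ := Metric.eventually_nhds_iff.mp (a1.and (a2.and a3))
  obtain ⟨ρ', hρ', hball'⟩ := Metric.eventually_nhds_iff.mp (b1.and b2)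
  obtain ⟨κ, hκ0, hκ1, hκN, hκP⟩ := exists_kappa P0 hP2 ρ hρ
  have hF := fiberD_kappa κ hκ0 hκ1 hκN
  set P := PK κ with hP
  obtain ⟨k1, k2, k3⟩ := hball (show dist (P:ℝ) P0 < ρ from hκP)
  obtain ⟨Q, w, hw, hQ⟩ := hF Q0 (by linarith) ρ' hρ'
  obtain ⟨l1, l2⟩ := hball' (show dist (Q:ℝ) Q0 < ρ' from hQ)
  have hPq : 1 < P := by exact_mod_cast k2
  have hQq : 1 < Q := by exact_mod_cast l2
  have hP' : P ^ 2 - 1 ≠ 0 := by nlinarith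
  have hQ' : Q ^ 2 - 1 ≠ 0 := by nlinarith
  refine ⟨2 * P / (P ^ 2 - 1), 2 * Q / (Q ^ 2 - 1), (P ^ 2 + 1) / (P ^ 2 - 1),
    (Q ^ 2 + 1) / (Q ^ 2 - 1), |2 * w / ((P ^ 2 - 1) * (Q ^ 2 - 1))|, ?_, ?_, ?_, abs_nonneg _,
    ?_, ?_⟩
  · field_simp
    ring
  · field_simp
    ring
  · rw [sq_abs]
    exact key_identity P Q hP' hQ' w hw
  · push_cast
    exact k1
  · push_cast
    exact l1

end Pool.Agent.RatTet.Dis
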