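import Pool.Agent.RatTet.DisGroup

set_option autoImplicit false

/-!
# Rational points on the fibres

`w ^ 2 = P Q ((P - 1) Q - (P + 1)) ((P + 1) Q + (P - 1))`, fibred over the `P`-line.
-/

namespace Pool.Agent.RatTet.Dis

open Filter Topology

/-- the fibre over `P` has dense rational points in the component `Q > (P + 1) / (P - 1)` -/
def FiberD (P : ℚ) : Prop :=
  ∀ Q0 : ℝ, (P + 1 : ℝ) < (P - 1) * Q0 → ∀ ε : ℝ, 0 < ε → ∃ Q w : ℚ,
    w ^ 2 = P * Q * ((P - 1) * Q - (P + 1)) * ((P + 1) * Q + (P - 1)) ∧ |(Q:ℝ) - Q0| < ε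

/-- from a rational point of infinite order to density -/
lemma fiberD_of_point (P s c d : ℚ) (hP : 1 < P)
    (hc2 : c ^ 2 = 1 - 1 / (2 * P * (P ^ 2 + 1)) * s ^ 2)
    (hd2 : d ^ 2 = 1 - (P - 1) ^ 2 / (2 * (P ^ 2 + 1)) * (1 / (2 * P * (P ^ 2 + 1))) * s ^ 2)
    (hd0 : 0 < d) (hs0 : s ≠ 0) (hNq : N ((P - 1) ^ 2 / (2 * (P ^ 2 + 1))) ≤ 1)
    (hNt : N (1 / (2 * P * (P ^ 2 + 1))) ≤ 1)
    (hNs : N s ≤ 1 / 3) (hNc : N (c - 1) < 1) (hNd : N (d - 1) < 1) : FiberD P := by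
  intro Q0 hQ0 ε hε
  have hP0 : 0 < P := by linarith
  set q : ℚ := (P - 1) ^ 2 / (2 * (P ^ 2 + 1)) with hq
  set L : ℚ := 2 * P * (P ^ 2 + 1) with hL
  set t : ℚ := 1 / L with htd
  have hLpos : 0 < L := by rw [hL]; positivity
  have hq0 : 0 ≤ q := by rw [hq]; positivity
  have hq1 : q < 1 := by
    rw [hq, div_lt_one (by positivity)]
    nlinarith
  have hLr : (0:ℝ) < L := by exact_mod_cast hLpos
  set lam : ℝ := Real.sqrt L with hlam
  have hlam2 : lam ^ 2 = L := Real.sq_sqrt hLr.le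
  have hlampos : 0 < lam := Real.sqrt_pos.mpr hLr
  have ht : lam ^ 2 * t = 1 := by
    rw [hlam2, htd]
    push_cast
    field_simp
  obtain ⟨J⟩ := exists_Jac (q := (q:ℝ)) (by exact_mod_cast hq0) (by exact_mod_cast hq1)
  have hc2r : (c:ℝ) ^ 2 = 1 - t * (s:ℝ) ^ 2 := by exact_mod_cast hc2
  have hd2r : (d:ℝ) ^ 2 = 1 - q * t * (s:ℝ) ^ 2 := by exact_mod_cast hd2
  obtain ⟨u, hus, huc⟩ := J.surj (s / lam) c (by
    rw [div_pow, hlam2, hc2r, htd]
    push_cast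
    field_simp
    ring)
  have hud : J.D u = d := by
    have h1 := J.hD u
    rw [hus, div_pow, hlam2] at h1
    have h3 : J.D u ^ 2 = (d:ℝ) ^ 2 := by
      rw [h1, hd2r, htd]
      push_cast
      field_simp
    have h4 := J.Dpos u
    have h5 : (0:ℝ) < d := by exact_mod_cast hd0
    exact (pow_left_inj₀ h4.le h5.le two_ne_zero).mp h3
  have htri : Tri q J lam u s c d := by
    refine ⟨?_, huc, hud⟩
    rw [hus]
    field_simp
  have hdense := grpT_dense hq0 ht u ⟨s, c, d, htri⟩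
    (fun n hn => infinite_orderT hq0 ht hNq hNt n hn u s c d htri hs0 hNs hNc hNd)
  -- the target
  have hPr : (1:ℝ) < P := by exact_mod_cast hP
  have hP1 : (0:ℝ) < P - 1 := by linarith
  set E : ℝ := 2 * ((P:ℝ) ^ 2 + 1) / (P ^ 2 - 1) with hE
  set e3 : ℝ := ((P:ℝ) - 1) / (P + 1) with he3
  have hP2 : (0:ℝ) < (P:ℝ) ^ 2 - 1 := by nlinarith
  have hEpos : 0 < E := by rw [hE]; positivity
  have hQe : 0 < Q0 + e3 - E := by
    have h1 : Q0 + e3 - E = ((P - 1) * Q0 - (P + 1)) / (P - 1) := by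
      rw [hE, he3]
      have h2 : (P:ℝ) ^ 2 - 1 = (P - 1) * (P + 1) := by ring
      rw [h2]
      field_simp
      ring
    rw [h1]
    apply div_pos _ hP1
    linarith
  have hQpos : 0 < Q0 + e3 := by linarith
  obtain ⟨v, hvs, hvc⟩ := J.surj (Real.sqrt (E / (Q0 + e3))) (Real.sqrt (1 - E / (Q0 + e3))) (by
    rw [Real.sq_sqrt (by positivity), Real.sq_sqrt]
    · ring
    · rw [sub_nonneg, div_le_one hQpos]
      linarith)
  have hvs0 : J.S v ≠ 0 := by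
    rw [hvs]
    exact (Real.sqrt_pos.mpr (by positivity)).ne'
  have hval : E / J.S v ^ 2 - e3 = Q0 := by
    rw [hvs, Real.sq_sqrt (by positivity)]
    field_simp
    ring
  have hcont : ContinuousAt (fun x => E / J.S x ^ 2 - e3) v :=
    (continuousAt_const.div ((J.dS v).continuousAt.pow 2) (pow_ne_zero 2 hvs0)).sub
      continuousAt_const
  have h1 : ∀ᶠ x in 𝓝 v, |E / J.S x ^ 2 - e3 - Q0| < ε := by
    have := hcont.tendsto
    rw [hval] at this
    have h2 := Metric.tendsto_nhds.mp this ε hε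
    filter_upwards [h2] with x hx
    exact hx
  have h2 : ∀ᶠ x in 𝓝 v, J.S x ≠ 0 := (J.dS v).continuousAt.eventually_ne hvs0
  obtain ⟨x, ⟨hx1, hx2⟩, hxm⟩ := mem_closure_iff_nhds.mp (hdense v) _ (h1.and h2)
  obtain ⟨s', c', d', h'⟩ := hxm
  have hs' : s' ≠ 0 := by
    rintro rfl
    apply hx2
    have := h'.1
    rw [Rat.cast_zero] at this
    rcases mul_eq_zero.mp this with h | h
    · exact absurd h hlampos.ne'
    · exact h
  have hc' := h'.c_sq ht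
  have hd' := h'.d_sq ht
  have hP1q : P - 1 ≠ 0 := by
    have : 0 < P - 1 := by linarith
    exact this.ne'
  have hP2q : P + 1 ≠ 0 := by
    have : 0 < P + 1 := by linarith
    exact this.ne'
  have hP3q : P ^ 2 + 1 ≠ 0 := by positivity
  have hP4q : P ^ 2 - 1 ≠ 0 := by
    have : P ^ 2 - 1 = (P - 1) * (P + 1) := by ring
    rw [this]
    exact mul_ne_zero hP1q hP2q
  refine ⟨2 * (P ^ 2 + 1) / (P ^ 2 - 1) * L / s' ^ 2 - (P - 1) / (P + 1),
    L ^ 3 * c' * d' / (P * (P ^ 2 - 1) * s' ^ 3), ?_, ?_⟩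
  · have hA : (P - 1) * (2 * (P ^ 2 + 1) / (P ^ 2 - 1) * L / s' ^ 2 - (P - 1) / (P + 1)) - (P + 1)
        = 2 * (P ^ 2 + 1) / (P + 1) * (c' ^ 2 * L / s' ^ 2) := by
      rw [hc', htd]
      have h2 : P ^ 2 - 1 = (P - 1) * (P + 1) := by ring
      rw [h2]
      field_simp
      ring
    have hB : (P + 1) * (2 * (P ^ 2 + 1) / (P ^ 2 - 1) * L / s' ^ 2 - (P - 1) / (P + 1)) + (P - 1)
        = 2 * (P ^ 2 + 1) / (P - 1) * (L / s' ^ 2) := by
      have h2 : P ^ 2 - 1 = (P - 1) * (P + 1) := by ring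
      rw [h2]
      field_simp
      ring
    have hC : 2 * (P ^ 2 + 1) / (P ^ 2 - 1) * L / s' ^ 2 - (P - 1) / (P + 1)
        = 2 * (P ^ 2 + 1) / (P ^ 2 - 1) * (d' ^ 2 * L / s' ^ 2) := by
      rw [hd', htd, hq]
      have h2 : P ^ 2 - 1 = (P - 1) * (P + 1) := by ring
      rw [h2]
      field_simp
    rw [hA, hB, hC, hL]
    have h2 : P ^ 2 - 1 = (P - 1) * (P + 1) := by ring
    rw [h2]
    field_simp
  · have hS := h'.S_eq ht
    rw [hS] at hx1
    have e : (((2 * (P ^ 2 + 1) / (P ^ 2 - 1) * L / s' ^ 2 - (P - 1) / (P + 1) : ℚ)) : ℝ)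
        = E / ((t:ℝ) * lam * s') ^ 2 - e3 := by
      rw [mul_pow, mul_pow, hlam2, htd, hE, he3]
      push_cast
      have hs'r : (s':ℝ) ≠ 0 := by exact_mod_cast hs'
      field_simp
    rw [e]
    exact hx1

end Pool.Agent.RatTet.Dis
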