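import Pool.Agent.RatTet.DisCore

set_option autoImplicit false

/-!
# Disphenoids: coordinates
-/

namespace Pool.Agent.RatTet.Dis

open Filter Topology

/-- coordinates of the four vertices of a disphenoid -/
def VD (Y ξ η ζ : ℚ) : Fin 4 → Fin 3 → ℚ :=
  ![![0, 0, 0], ![Y * (ξ + η), 0, 0], ![Y * ξ, Y, 0], ![Y * η, Y * (1 - 2 * ξ * η), 2 * Y * ζ]]

section

variable {Y ξ η ζ : ℚ}

lemma d01 : dsq (VD Y ξ η ζ) 0 1 = (Y * (ξ + η)) ^ 2 := by simp [dsq, VD]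
lemma d02 : dsq (VD Y ξ η ζ) 0 2 = Y ^ 2 * (1 + ξ ^ 2) := by simp [dsq, VD]; ring
lemma d12 : dsq (VD Y ξ η ζ) 1 2 = Y ^ 2 * (1 + η ^ 2) := by simp [dsq, VD]; ring

lemma d03 (h : ζ ^ 2 = ξ * η * (1 - ξ * η)) :
    dsq (VD Y ξ η ζ) 0 3 = Y ^ 2 * (1 + η ^ 2) := by
  simp [dsq, VD]
  linear_combination 4 * Y ^ 2 * h

lemma d13 (h : ζ ^ 2 = ξ * η * (1 - ξ * η)) :
    dsq (VD Y ξ η ζ) 1 3 = Y ^ 2 * (1 + ξ ^ 2) := by
  simp [dsq, VD]
  linear_combination 4 * Y ^ 2 * h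

lemma d23 (h : ζ ^ 2 = ξ * η * (1 - ξ * η)) :
    dsq (VD Y ξ η ζ) 2 3 = (Y * (ξ + η)) ^ 2 := by
  simp [dsq, VD]
  linear_combination 4 * Y ^ 2 * h

end

lemma VD_edges {Y ξ η ζ σ τ : ℚ} (hσ : 1 + ξ ^ 2 = σ ^ 2) (hτ : 1 + η ^ 2 = τ ^ 2)
    (h : ζ ^ 2 = ξ * η * (1 - ξ * η)) : ∀ i j, IsSquare (dsq (VD Y ξ η ζ) i j) := by
  have s1 : IsSquare ((Y * (ξ + η)) ^ 2) := ⟨Y * (ξ + η), by ring⟩
  have s2 : IsSquare (Y ^ 2 * (1 + ξ ^ 2)) := ⟨Y * σ, by rw [hσ]; ring⟩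
  have s3 : IsSquare (Y ^ 2 * (1 + η ^ 2)) := ⟨Y * τ, by rw [hτ]; ring⟩
  have s0 : IsSquare (0 : ℚ) := ⟨0, by ring⟩
  have sym : ∀ i j, IsSquare (dsq (VD Y ξ η ζ) i j) → IsSquare (dsq (VD Y ξ η ζ) j i) := by
    intro i j hh
    rw [dsq_comm]
    exact hh
  have t01 : IsSquare (dsq (VD Y ξ η ζ) 0 1) := by rw [d01]; exact s1
  have t02 : IsSquare (dsq (VD Y ξ η ζ) 0 2) := by rw [d02]; exact s2
  have t03 : IsSquare (dsq (VD Y ξ η ζ) 0 3) := by rw [d03 h]; exact s3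
  have t12 : IsSquare (dsq (VD Y ξ η ζ) 1 2) := by rw [d12]; exact s3
  have t13 : IsSquare (dsq (VD Y ξ η ζ) 1 3) := by rw [d13 h]; exact s2
  have t23 : IsSquare (dsq (VD Y ξ η ζ) 2 3) := by rw [d23 h]; exact s1
  have tii : ∀ i, IsSquare (dsq (VD Y ξ η ζ) i i) := by
    intro i
    rw [dsq_self]
    exact s0
  intro i j
  fin_cases i <;> fin_cases j
  · exact tii 0
  · exact t01
  · exact t02
  · exact t03
  · exact sym _ _ t01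
  · exact tii 1
  · exact t12
  · exact t13
  · exact sym _ _ t02
  · exact sym _ _ t12
  · exact tii 2
  · exact t23
  · exact sym _ _ t03
  · exact sym _ _ t13
  · exact sym _ _ t23
  · exact tii 3

lemma VD_faces {Y ξ η ζ : ℚ} (h : ζ ^ 2 = ξ * η * (1 - ξ * η)) :
    ∀ i j l, IsSquare (her (dsq (VD Y ξ η ζ) i j) (dsq (VD Y ξ η ζ) j l)
      (dsq (VD Y ξ η ζ) i l)) := by
  apply faces_of_sorted
  intro i j l hij hjl
  have hc : (i = 0 ∧ j = 1 ∧ l = 2) ∨ (i = 0 ∧ j = 1 ∧ l = 3) ∨ (i = 0 ∧ j = 2 ∧ l = 3) ∨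
      (i = 1 ∧ j = 2 ∧ l = 3) := by
    revert i j l
    decide
  have key : her ((Y * (ξ + η)) ^ 2) (Y ^ 2 * (1 + η ^ 2)) (Y ^ 2 * (1 + ξ ^ 2)) =
      2 * Y ^ 2 * (ξ + η) * (2 * Y ^ 2 * (ξ + η)) := by
    unfold her
    ring
  rcases hc with ⟨rfl, rfl, rfl⟩ | ⟨rfl, rfl, rfl⟩ | ⟨rfl, rfl, rfl⟩ | ⟨rfl, rfl, rfl⟩
  · rw [d01, d12, d02]
    exact ⟨_, key⟩
  · rw [d01, d13 h, d03 h, her_swap23]
    exact ⟨_, key⟩
  · rw [d02, d23 h, d03 h, her_swap12, her_swap23]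
    exact ⟨_, key⟩
  · rw [d12, d23 h, d13 h, her_swap12]
    exact ⟨_, key⟩

/-- opposite edges are equal -/
def Opp (V : Fin 4 → Fin 3 → ℚ) : Prop :=
  ∀ i j k l : Fin 4, i ≠ j → i ≠ k → i ≠ l → j ≠ k → j ≠ l → k ≠ l → dsq V i j = dsq V k l

lemma Opp.perm {V : Fin 4 → Fin 3 → ℚ} (h : Opp V) (σ : Equiv.Perm (Fin 4)) :
    Opp (fun i => V (σ i)) := by
  intro i j k l h1 h2 h3 h4 h5 h6
  exact h (σ i) (σ j) (σ k) (σ l) (σ.injective.ne h1) (σ.injective.ne h2) (σ.injective.ne h3)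
    (σ.injective.ne h4) (σ.injective.ne h5) (σ.injective.ne h6)

lemma opp_of {V : Fin 4 → Fin 3 → ℚ} (h1 : dsq V 0 1 = dsq V 2 3) (h2 : dsq V 0 2 = dsq V 1 3)
    (h3 : dsq V 0 3 = dsq V 1 2) : Opp V := by
  have c := dsq_comm V
  intro i j k l n1 n2 n3 n4 n5 n6
  have key : ∀ i j k l : Fin 4, i ≠ j → i ≠ k → i ≠ l → j ≠ k → j ≠ l → k ≠ l →
      (({i, j} : Finset (Fin 4)) = {0, 1} ∧ ({k, l} : Finset (Fin 4)) = {2, 3}) ∨
      (({i, j} : Finset (Fin 4)) = {2, 3} ∧ ({k, l} : Finset (Fin 4)) = {0, 1}) ∨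
      (({i, j} : Finset (Fin 4)) = {0, 2} ∧ ({k, l} : Finset (Fin 4)) = {1, 3}) ∨
      (({i, j} : Finset (Fin 4)) = {1, 3} ∧ ({k, l} : Finset (Fin 4)) = {0, 2}) ∨
      (({i, j} : Finset (Fin 4)) = {0, 3} ∧ ({k, l} : Finset (Fin 4)) = {1, 2}) ∨
      (({i, j} : Finset (Fin 4)) = {1, 2} ∧ ({k, l} : Finset (Fin 4)) = {0, 3}) := by decide
  have pair : ∀ a b a' b' : Fin 4, ({a, b} : Finset (Fin 4)) = {a', b'} →
      (a = a' ∧ b = b') ∨ (a = b' ∧ b = a') := by decide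
  have val : ∀ a b a' b' : Fin 4, ({a, b} : Finset (Fin 4)) = {a', b'} →
      dsq V a b = dsq V a' b' := by
    intro a b a' b' h
    rcases pair a b a' b' h with ⟨rfl, rfl⟩ | ⟨rfl, rfl⟩
    · rfl
    · exact c _ _
  rcases key i j k l n1 n2 n3 n4 n5 n6 with h | h | h | h | h | h
  · rw [val _ _ _ _ h.1, val _ _ _ _ h.2, h1]
  · rw [val _ _ _ _ h.1, val _ _ _ _ h.2, h1]
  · rw [val _ _ _ _ h.1, val _ _ _ _ h.2, h2]
  · rw [val _ _ _ _ h.1, val _ _ _ _ h.2, h2]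
  · rw [val _ _ _ _ h.1, val _ _ _ _ h.2, h3]
  · rw [val _ _ _ _ h.1, val _ _ _ _ h.2, h3]

/-- affine independence in terms of difference vectors -/
lemma lin_ne {p : Fin 4 → E3} (hp : AffineIndependent ℝ p) (a b c : ℝ)
    (h : a • (p 1 - p 0) + b • (p 2 - p 0) + c • (p 3 - p 0) = 0) : a = 0 ∧ b = 0 ∧ c = 0 := by
  rw [affineIndependent_iff] at hp
  have h1 := hp Finset.univ ![-(a + b + c), a, b, c] (by
    rw [Fin.sum_univ_four]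
    simp only [Matrix.cons_val_zero, Matrix.cons_val_one, Matrix.cons_val]
    ring) (by
    rw [Fin.sum_univ_four]
    simp only [Matrix.cons_val_zero, Matrix.cons_val_one, Matrix.cons_val]
    rw [← h]
    module)
  have h2 := h1 1 (Finset.mem_univ _)
  have h3 := h1 2 (Finset.mem_univ _)
  have h4 := h1 3 (Finset.mem_univ _)
  simp only [Matrix.cons_val_one, Matrix.cons_val] at h2 h3 h4
  exact ⟨h2, h3, h4⟩

/-- Gram-Schmidt -/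
lemma exists_frame_dis {p : Fin 4 → E3} (hp : AffineIndependent ℝ p) :
    ∃ e : Fin 3 → E3, Orthonormal ℝ e ∧ ∃ a x y x3 y3 z3 : ℝ, 0 < a ∧ 0 < y ∧ 0 < z3 ∧
      p 0 = p 0 + ((0:ℝ) • e 0 + (0:ℝ) • e 1 + (0:ℝ) • e 2) ∧
      p 1 = p 0 + (a • e 0 + (0:ℝ) • e 1 + (0:ℝ) • e 2) ∧
      p 2 = p 0 + (x • e 0 + y • e 1 + (0:ℝ) • e 2) ∧
      p 3 = p 0 + (x3 • e 0 + y3 • e 1 + z3 • e 2) := by
  obtain ⟨v1, hv1⟩ : ∃ v : E3, v = p 1 - p 0 := ⟨_, rfl⟩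
  obtain ⟨v2, hv2⟩ : ∃ v : E3, v = p 2 - p 0 := ⟨_, rfl⟩
  obtain ⟨v3, hv3⟩ : ∃ v : E3, v = p 3 - p 0 := ⟨_, rfl⟩
  have hlin : ∀ a b c : ℝ, a • v1 + b • v2 + c • v3 = 0 → a = 0 ∧ b = 0 ∧ c = 0 := by
    intro a b c h
    rw [hv1, hv2, hv3] at h
    exact lin_ne hp a b c h
  have hv10 : v1 ≠ 0 := by
    intro h
    have := (hlin 1 0 0 (by rw [h]; simp)).1
    norm_num at this
  obtain ⟨a, ha⟩ : ∃ a : ℝ, a = ‖v1‖ := ⟨_, rfl⟩
  have hapos : 0 < a := by rw [ha]; exact norm_pos_iff.mpr hv10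
  obtain ⟨e0, he0⟩ : ∃ e : E3, e = a⁻¹ • v1 := ⟨_, rfl⟩
  have hae : a • e0 = v1 := by rw [he0, smul_smul, mul_inv_cancel₀ hapos.ne', one_smul]
  have n0 : ‖e0‖ = 1 := by
    rw [he0, norm_smul, norm_inv, Real.norm_of_nonneg hapos.le, ← ha,
      inv_mul_cancel₀ hapos.ne']
  have i00 : inner ℝ e0 e0 = (1:ℝ) := by rw [real_inner_self_eq_norm_sq, n0]; norm_num
  obtain ⟨x, hx⟩ : ∃ x : ℝ, x = inner ℝ e0 v2 := ⟨_, rfl⟩
  obtain ⟨w, hw⟩ : ∃ w : E3, w = v2 - x • e0 := ⟨_, rfl⟩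
  have hw0 : w ≠ 0 := by
    intro h
    have := (hlin (-(x * a⁻¹)) 1 0 (by
      rw [hw, he0, smul_smul] at h
      rw [← h]
      module)).2.1
    norm_num at this
  obtain ⟨y, hy⟩ : ∃ y : ℝ, y = ‖w‖ := ⟨_, rfl⟩
  have hypos : 0 < y := by rw [hy]; exact norm_pos_iff.mpr hw0
  obtain ⟨e1, he1⟩ : ∃ e : E3, e = y⁻¹ • w := ⟨_, rfl⟩
  have hye : y • e1 = w := by rw [he1, smul_smul, mul_inv_cancel₀ hypos.ne', one_smul]
  have n1 : ‖e1‖ = 1 := by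
    rw [he1, norm_smul, norm_inv, Real.norm_of_nonneg hypos.le, ← hy,
      inv_mul_cancel₀ hypos.ne']
  have i11 : inner ℝ e1 e1 = (1:ℝ) := by rw [real_inner_self_eq_norm_sq, n1]; norm_num
  have i01 : inner ℝ e0 e1 = (0:ℝ) := by
    rw [he1, inner_smul_right, hw, inner_sub_right, inner_smul_right, i00, ← hx]
    ring
  obtain ⟨x3, hx3⟩ : ∃ x : ℝ, x = inner ℝ e0 v3 := ⟨_, rfl⟩
  obtain ⟨y3, hy3⟩ : ∃ x : ℝ, x = inner ℝ e1 v3 := ⟨_, rfl⟩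
  obtain ⟨u, hu⟩ : ∃ w : E3, w = v3 - x3 • e0 - y3 • e1 := ⟨_, rfl⟩
  have hu0 : u ≠ 0 := by
    intro h
    have := (hlin (-(x3 * a⁻¹) + y3 * y⁻¹ * (x * a⁻¹)) (-(y3 * y⁻¹)) 1 (by
      rw [hu, he1, hw, he0] at h
      rw [← h]
      module)).2.2
    norm_num at this
  obtain ⟨z, hz⟩ : ∃ y : ℝ, y = ‖u‖ := ⟨_, rfl⟩
  have hzpos : 0 < z := by rw [hz]; exact norm_pos_iff.mpr hu0
  obtain ⟨e2, he2⟩ : ∃ e : E3, e = z⁻¹ • u := ⟨_, rfl⟩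
  have hze : z • e2 = u := by rw [he2, smul_smul, mul_inv_cancel₀ hzpos.ne', one_smul]
  have n2 : ‖e2‖ = 1 := by
    rw [he2, norm_smul, norm_inv, Real.norm_of_nonneg hzpos.le, ← hz,
      inv_mul_cancel₀ hzpos.ne']
  have i10 : inner ℝ e1 e0 = (0:ℝ) := by rw [real_inner_comm]; exact i01
  have i02 : inner ℝ e0 e2 = (0:ℝ) := by
    rw [he2, inner_smul_right, hu, inner_sub_right, inner_sub_right, inner_smul_right,
      inner_smul_right, i00, i01, ← hx3]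
    ring
  have i12 : inner ℝ e1 e2 = (0:ℝ) := by
    rw [he2, inner_smul_right, hu, inner_sub_right, inner_sub_right, inner_smul_right,
      inner_smul_right, i10, i11, ← hy3]
    ring
  refine ⟨![e0, e1, e2], ?_, a, x, y, x3, y3, z, hapos, hypos, hzpos, ?_, ?_, ?_, ?_⟩
  · rw [orthonormal_iff_ite]
    intro i j
    fin_cases i <;> fin_cases j <;>
      simp [n0, n1, n2, i01, i02, i12, real_inner_comm e0 e1, real_inner_comm e0 e2,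
        real_inner_comm e1 e2]
  · simp
  · simp only [Matrix.cons_val_zero, Matrix.cons_val_one, Matrix.cons_val]
    rw [hae, hv1]
    module
  · simp only [Matrix.cons_val_zero, Matrix.cons_val_one, Matrix.cons_val]
    rw [hye, hw, hv2]
    module
  · simp only [Matrix.cons_val_zero, Matrix.cons_val_one, Matrix.cons_val]
    rw [hze, hu, hv3]
    module

/-- the algebra of a disphenoid in the frame -/
lemma dis_algebra {a x y x3 y3 z3 : ℝ} (ha : 0 < a) (hy : 0 < y) (hz : 0 < z3)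
    (h1 : a ^ 2 = (x3 - x) ^ 2 + (y3 - y) ^ 2 + z3 ^ 2)
    (h2 : x ^ 2 + y ^ 2 = (x3 - a) ^ 2 + y3 ^ 2 + z3 ^ 2)
    (h3 : x3 ^ 2 + y3 ^ 2 + z3 ^ 2 = (x - a) ^ 2 + y ^ 2)
    (m1 : a ^ 2 ≤ x3 ^ 2 + y3 ^ 2 + z3 ^ 2) (m2 : x ^ 2 + y ^ 2 ≤ x3 ^ 2 + y3 ^ 2 + z3 ^ 2) :
    0 < x / y ∧ x / y < 4 / 3 ∧ 0 < (a - x) / y ∧ x / y * ((a - x) / y) < 1 ∧
      a = y * (x / y + (a - x) / y) ∧ x = y * (x / y) ∧ x3 = y * ((a - x) / y) ∧
      y3 = y * (1 - 2 * (x / y) * ((a - x) / y)) ∧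
      z3 = 2 * y * Real.sqrt (x / y * ((a - x) / y) * (1 - x / y * ((a - x) / y))) := by
  have hx3 : x3 = a - x := by
    have : a * (x3 - (a - x)) = 0 := by nlinarith
    rcases mul_eq_zero.mp this with h | h
    · exact absurd h ha.ne'
    · linarith
  subst hx3
  have hr : y3 ^ 2 + z3 ^ 2 = y ^ 2 := by nlinarith
  have hy3 : y * (y - y3) = 2 * x * (a - x) := by nlinarith
  have hz2 : 0 < z3 ^ 2 := by positivity
  have hlt : y3 ^ 2 < y ^ 2 := by linarith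
  have hlt1 : y3 < y := by nlinarith
  have hlt2 : -y < y3 := by nlinarith
  have hpos : 0 < x * (a - x) := by nlinarith
  have hx : 0 < x := by
    by_contra hcon
    have : x ≤ 0 := not_lt.mp hcon
    nlinarith
  have hax : 0 < a - x := (pos_iff_pos_of_mul_pos hpos).mp hx
  have hprod : x * (a - x) < y ^ 2 := by nlinarith
  have e1 : x / y * ((a - x) / y) = x * (a - x) / y ^ 2 := by
    rw [div_mul_div_comm, pow_two]
  have e2 : y3 = y * (1 - 2 * (x / y) * ((a - x) / y)) := by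
    have : y * (1 - 2 * (x / y) * ((a - x) / y)) = (y ^ 2 - 2 * x * (a - x)) / y := by
      field_simp
    rw [this, eq_div_iff hy.ne']
    linarith
  refine ⟨by positivity, ?_, by positivity, ?_, ?_, ?_, ?_, e2, ?_⟩
  · rw [div_lt_iff₀ hy]
    have k1 : x ≤ a / 2 := by nlinarith
    have k2 : 3 * x ^ 2 ≤ y ^ 2 := by nlinarith
    nlinarith
  · rw [e1, div_lt_one (by positivity)]
    exact hprod
  · field_simp
    ring
  · field_simp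
  · field_simp
  · have hs : z3 = Real.sqrt (z3 ^ 2) := (Real.sqrt_sq hz.le).symm
    have hs2 : 2 * y * Real.sqrt (x / y * ((a - x) / y) * (1 - x / y * ((a - x) / y)))
        = Real.sqrt ((2 * y) ^ 2 * (x / y * ((a - x) / y) * (1 - x / y * ((a - x) / y)))) := by
      rw [Real.sqrt_mul (x := (2 * y) ^ 2) (by positivity), Real.sqrt_sq (by positivity)]
    rw [hs, hs2]
    congr 1
    have hz3 : z3 ^ 2 = y ^ 2 - y3 ^ 2 := by linarith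
    rw [hz3, e2]
    field_simp
    ring

end Pool.Agent.RatTet.Dis
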