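import Pool.Agent.RatTet.Final

set_option autoImplicit false

/-!
# Twisted Jacobi functions

`lam ^ 2 * t = 1`; the real numbers `u` for which `lam * sn u`, `cn u`, `dn u` are rational form a
group; a point that is 3-adically close to the identity has infinite order.
-/

namespace Pool.Agent.RatTet.Dis

open Filter Topology

/-- `s, c, d` are the rational values of the twisted Jacobi functions at `u` -/
def Tri (q : ℚ) (J : Jac (q : ℝ)) (lam u : ℝ) (s c d : ℚ) : Prop :=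
  lam * J.S u = s ∧ J.C u = c ∧ J.D u = d

variable {q t : ℚ} {J : Jac (q : ℝ)} {lam : ℝ}

lemma Tri.zero : Tri q J lam 0 0 1 1 := ⟨by simp [J.S0], by simp [J.C0], by simp [J.D0]⟩

lemma Tri.neg {u : ℝ} {s c d : ℚ} (h : Tri q J lam u s c d) : Tri q J lam (-u) (-s) c d := by
  refine ⟨?_, ?_, ?_⟩
  · rw [J.Sneg, mul_neg, h.1]; push_cast; rfl
  · rw [J.Cneg, h.2.1]
  · rw [J.Dneg, h.2.2]

lemma Tri.S_eq (ht : lam ^ 2 * t = 1) {u : ℝ} {s c d : ℚ} (h : Tri q J lam u s c d) :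
    J.S u = t * lam * s := by
  have h1 := h.1
  have : J.S u = t * lam * (lam * J.S u) := by linear_combination (-J.S u) * ht
  rw [this, h1]

lemma Tri.add (h0 : 0 ≤ q) (ht : lam ^ 2 * t = 1) {u v : ℝ} {s1 c1 d1 s2 c2 d2 : ℚ}
    (h1 : Tri q J lam u s1 c1 d1) (h2 : Tri q J lam v s2 c2 d2) :
    Tri q J lam (u + v)
      ((s1 * c2 * d2 + s2 * c1 * d1) / (1 - q * t ^ 2 * s1 ^ 2 * s2 ^ 2))
      ((c1 * c2 - t * s1 * s2 * d1 * d2) / (1 - q * t ^ 2 * s1 ^ 2 * s2 ^ 2))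
      ((d1 * d2 - q * t * s1 * s2 * c1 * c2) / (1 - q * t ^ 2 * s1 ^ 2 * s2 ^ 2)) := by
  have h0' : (0:ℝ) ≤ q := by exact_mod_cast h0
  have hp := J.den_pos h0' u v
  have hS := J.add_S h0' u v
  have hC := J.add_C h0' u v
  have hD := J.add_D h0' u v
  have e1 := h1.S_eq ht
  have e2 := h2.S_eq ht
  have hden : 1 - q * J.S u ^ 2 * J.S v ^ 2 = 1 - q * (t:ℝ) ^ 2 * s1 ^ 2 * s2 ^ 2 := by
    rw [e1, e2]
    linear_combination (-(q * (t:ℝ) ^ 2 * s1 ^ 2 * s2 ^ 2) * (lam ^ 2 * t + 1)) * ht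
  have hss : J.S u * J.S v = t * s1 * s2 := by
    rw [e1, e2]
    linear_combination (t * s1 * s2 : ℝ) * ht
  rw [hden] at hp hS hC hD
  refine ⟨?_, ?_, ?_⟩
  · push_cast
    rw [eq_div_iff hp.ne']
    rw [← h1.1, ← h2.1, ← h1.2.1, ← h2.2.1, ← h1.2.2, ← h2.2.2]
    rw [← h1.1, ← h2.1] at hS
    linear_combination lam * hS
  · push_cast
    rw [eq_div_iff hp.ne', hC, h1.2.1, h2.2.1, h1.2.2, h2.2.2]
    have := hss
    linear_combination (-(d1 * d2 : ℝ)) * hss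
  · push_cast
    rw [eq_div_iff hp.ne', hD, h1.2.1, h2.2.1, h1.2.2, h2.2.2]
    linear_combination (-(q * c1 * c2 : ℝ)) * hss

/-- the group of real points with rational twisted Jacobi functions -/
def grpT (q t : ℚ) (h0 : 0 ≤ q) (J : Jac (q : ℝ)) (lam : ℝ) (ht : lam ^ 2 * t = 1) :
    AddSubgroup ℝ where
  carrier := {u | ∃ s c d : ℚ, Tri q J lam u s c d}
  zero_mem' := ⟨0, 1, 1, Tri.zero⟩
  neg_mem' := by
    rintro u ⟨s, c, d, h⟩
    exact ⟨_, _, _, h.neg⟩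
  add_mem' := by
    rintro u v ⟨s1, c1, d1, h1⟩ ⟨s2, c2, d2, h2⟩
    exact ⟨_, _, _, h1.add h0 ht h2⟩

lemma grpT_dense (h0 : 0 ≤ q) (ht : lam ^ 2 * t = 1) (u1 : ℝ) (hu1 : u1 ∈ grpT q t h0 J lam ht)
    (hinf : ∀ n : ℕ, n ≠ 0 → J.S (n * u1) ≠ 0) : Dense (grpT q t h0 J lam ht : Set ℝ) := by
  have h0' : (0:ℝ) ≤ q := by exact_mod_cast h0
  rcases AddSubgroup.dense_or_cyclic (grpT q t h0 J lam ht) with h | ⟨a, ha⟩
  · exact h
  · exfalso
    obtain ⟨w, hs, hc, hd, hw0, hw⟩ := exists_half_period h0' J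
    have hwm : w ∈ grpT q t h0 J lam ht := ⟨0, -1, 1, by simp [hs], by simp [hc], by simp [hd]⟩
    rw [ha, AddSubgroup.mem_closure_singleton] at hu1 hwm
    obtain ⟨m, hm⟩ := hu1
    obtain ⟨n, hn⟩ := hwm
    have hn0 : n ≠ 0 := by
      rintro rfl
      simp at hn
      exact hw0 hn.symm
    have e : (n : ℝ) * u1 = m * w := by
      rw [← hm, ← hn]
      simp only [zsmul_eq_mul]
      ring
    have hSm : ∀ k : ℤ, J.S (k * w) = 0 := by
      intro k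
      rcases Int.eq_nat_or_neg k with ⟨j, rfl | rfl⟩
      · simpa using hw j
      · push_cast
        rw [neg_mul, J.Sneg, hw j, neg_zero]
    have hz : J.S (n * u1) = 0 := by rw [e, hSm]
    rcases Int.eq_nat_or_neg n with ⟨j, rfl | rfl⟩
    · have hj : j ≠ 0 := by simpa using hn0
      exact hinf j hj (by simpa using hz)
    · have hj : j ≠ 0 := by simpa using hn0
      apply hinf j hj
      push_cast at hz
      rw [neg_mul, J.Sneg] at hz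
      linarith

/-- one addition step, 3-adically -/
lemma add_stepT {A B E r s1 c1 d1 s2 c2 d2 : ℚ} (hA : N A ≤ 1) (hB : N B ≤ 1) (hE : N E ≤ 1)
    (hr0 : 0 ≤ r) (hr : r ≤ 1 / 3)
    (hs1 : N s1 ≤ r) (hc1 : N (c1 - 1) ≤ r ^ 2) (hd1 : N (d1 - 1) ≤ r ^ 2)
    (hs2 : N s2 ≤ r) (hc2 : N (c2 - 1) ≤ r ^ 2) (hd2 : N (d2 - 1) ≤ r ^ 2) :
    N ((s1 * c2 * d2 + s2 * c1 * d1) / (1 - A * s1 ^ 2 * s2 ^ 2)) ≤ r ∧
    N ((c1 * c2 - B * s1 * s2 * d1 * d2) / (1 - A * s1 ^ 2 * s2 ^ 2) - 1) ≤ r ^ 2 ∧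
    N ((d1 * d2 - E * s1 * s2 * c1 * c2) / (1 - A * s1 ^ 2 * s2 ^ 2) - 1) ≤ r ^ 2 ∧
    N ((s1 * c2 * d2 + s2 * c1 * d1) / (1 - A * s1 ^ 2 * s2 ^ 2) - (s1 + s2)) ≤ r ^ 3 := by
  have hr1 : r ^ 2 < 1 := by nlinarith
  have hr2 : r ≤ 1 := by linarith
  have hNc1 : N c1 ≤ 1 := (N_one_add (lt_of_le_of_lt hc1 hr1)).le
  have hNc2 : N c2 ≤ 1 := (N_one_add (lt_of_le_of_lt hc2 hr1)).le
  have hNd1 : N d1 ≤ 1 := (N_one_add (lt_of_le_of_lt hd1 hr1)).le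
  have hNd2 : N d2 ≤ 1 := (N_one_add (lt_of_le_of_lt hd2 hr1)).le
  obtain ⟨hden0, k1, -, -, k4⟩ := add_step hA hr0 hr hs1 hc1 hd1 hs2 hc2 hd2
  have hqs : N (A * s1 ^ 2 * s2 ^ 2) ≤ r ^ 4 := by
    rw [N_mul, N_mul, N_pow, N_pow]
    have h1 : N s1 ^ 2 ≤ r ^ 2 := pow_le_pow_left₀ (N_nonneg _) hs1 2
    have h2 : N s2 ^ 2 ≤ r ^ 2 := pow_le_pow_left₀ (N_nonneg _) hs2 2
    calc N A * N s1 ^ 2 * N s2 ^ 2 ≤ 1 * r ^ 2 * r ^ 2 := by
          apply mul_le_mul (mul_le_mul hA h1 (by positivity) (by norm_num)) h2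
            (pow_nonneg (N_nonneg _) 2) (by positivity)
      _ = r ^ 4 := by ring
  have hr4 : r ^ 4 ≤ r ^ 2 := by nlinarith [sq_nonneg r]
  have hden : N (1 - A * s1 ^ 2 * s2 ^ 2) = 1 := by
    apply N_one_add
    have e : 1 - A * s1 ^ 2 * s2 ^ 2 - 1 = -(A * s1 ^ 2 * s2 ^ 2) := by ring
    rw [e, N_neg]
    exact lt_of_le_of_lt hqs (lt_of_le_of_lt hr4 hr1)
  refine ⟨k1, ?_, ?_, k4⟩
  · have e : (c1 * c2 - B * s1 * s2 * d1 * d2) / (1 - A * s1 ^ 2 * s2 ^ 2) - 1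
        = ((c1 - 1) * c2 + (c2 - 1) - B * (s1 * s2) * (d1 * d2) + A * s1 ^ 2 * s2 ^ 2)
          / (1 - A * s1 ^ 2 * s2 ^ 2) := by
      rw [eq_div_iff hden0, sub_mul, div_mul_cancel₀ _ hden0]
      ring
    rw [e, N_div, hden, div_one]
    apply N_add (N_sub (N_add _ hc2) _) (le_trans hqs hr4)
    · simpa using N_mul_le hc1 hNc2
    · calc N (B * (s1 * s2) * (d1 * d2)) ≤ (1 * (r * r)) * (1 * 1) :=
            N_mul_le (N_mul_le hB (N_mul_le hs1 hs2)) (N_mul_le hNd1 hNd2)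
        _ = r ^ 2 := by ring
  · have e : (d1 * d2 - E * s1 * s2 * c1 * c2) / (1 - A * s1 ^ 2 * s2 ^ 2) - 1
        = ((d1 - 1) * d2 + (d2 - 1) - E * (s1 * s2) * (c1 * c2) + A * s1 ^ 2 * s2 ^ 2)
          / (1 - A * s1 ^ 2 * s2 ^ 2) := by
      rw [eq_div_iff hden0, sub_mul, div_mul_cancel₀ _ hden0]
      ring
    rw [e, N_div, hden, div_one]
    apply N_add (N_sub (N_add _ hd2) _) (le_trans hqs hr4)
    · simpa using N_mul_le hd1 hNd2
    · calc N (E * (s1 * s2) * (c1 * c2)) ≤ (1 * (r * r)) * (1 * 1) :=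
            N_mul_le (N_mul_le hE (N_mul_le hs1 hs2)) (N_mul_le hNc1 hNc2)
        _ = r ^ 2 := by ring

/-- multiples of a point, 3-adically -/
lemma multiplesT (h0 : 0 ≤ q) (ht : lam ^ 2 * t = 1) (hq : N q ≤ 1) (hNt : N t ≤ 1)
    {u : ℝ} {s c d r : ℚ} (hr0 : 0 ≤ r) (hr : r ≤ 1 / 3) (h : Tri q J lam u s c d)
    (hNs : N s ≤ r) (hNc : N (c - 1) ≤ r ^ 2) (hNd : N (d - 1) ≤ r ^ 2) (n : ℕ) :
    ∃ s' c' d' : ℚ, Tri q J lam (n * u) s' c' d' ∧
      N s' ≤ r ∧ N (c' - 1) ≤ r ^ 2 ∧ N (d' - 1) ≤ r ^ 2 ∧ N (s' - n * s) ≤ r ^ 3 := by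
  have hA : N (q * t ^ 2) ≤ 1 := by
    have := N_mul_le hq (N_mul_le hNt hNt)
    rw [← pow_two] at this
    simpa using this
  have hE : N (q * t) ≤ 1 := by simpa using N_mul_le hq hNt
  induction n with
  | zero =>
    refine ⟨0, 1, 1, by simpa using Tri.zero, by rw [N_zero]; exact hr0,
      ?_, ?_, ?_⟩ <;> simp [N_zero] <;> positivity
  | succ n ih =>
    obtain ⟨s', c', d', h', k1, k2, k3, k4⟩ := ih
    obtain ⟨a1, a2, a3, a4⟩ := add_stepT hA hNt hE hr0 hr k1 k2 k3 hNs hNc hNd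
    have e : ((n + 1 : ℕ) : ℝ) * u = n * u + u := by push_cast; ring
    refine ⟨_, _, _, ?_, a1, a2, a3, ?_⟩
    · rw [e]
      exact h'.add h0 ht h
    · have e2 : (s' * c * d + s * c' * d') / (1 - q * t ^ 2 * s' ^ 2 * s ^ 2)
          - ((n + 1 : ℕ) : ℚ) * s
          = ((s' * c * d + s * c' * d') / (1 - q * t ^ 2 * s' ^ 2 * s ^ 2) - (s' + s))
            + (s' - n * s) := by
        push_cast; ring
      rw [e2]
      exact N_add a4 k4

lemma Tri.c_sq (ht : lam ^ 2 * t = 1) {u : ℝ} {s c d : ℚ} (h : Tri q J lam u s c d) :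
    c ^ 2 = 1 - t * s ^ 2 := by
  have h1 := J.hC u
  rw [h.S_eq ht, h.2.1] at h1
  have h2 : (c:ℝ) ^ 2 = 1 - t * s ^ 2 := by
    linear_combination h1 - (t * s ^ 2 : ℝ) * ht
  exact_mod_cast h2

lemma Tri.d_sq (ht : lam ^ 2 * t = 1) {u : ℝ} {s c d : ℚ} (h : Tri q J lam u s c d) :
    d ^ 2 = 1 - q * t * s ^ 2 := by
  have h1 := J.hD u
  rw [h.S_eq ht, h.2.2] at h1
  have h2 : (d:ℝ) ^ 2 = 1 - q * t * s ^ 2 := by
    linear_combination h1 - (q * t * s ^ 2 : ℝ) * ht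
  exact_mod_cast h2

/-- a 3-adically small point has infinite order -/
lemma infinite_orderT (h0 : 0 ≤ q) (ht : lam ^ 2 * t = 1) (hq : N q ≤ 1) (hNt : N t ≤ 1) (n : ℕ) :
    n ≠ 0 → ∀ (u : ℝ) (s c d : ℚ), Tri q J lam u s c d → s ≠ 0 → N s ≤ 1 / 3 →
      N (c - 1) < 1 → N (d - 1) < 1 → J.S (n * u) ≠ 0 := by
  have hE : N (q * t) ≤ 1 := by simpa using N_mul_le hq hNt
  induction n using Nat.strong_induction_on with
  | _ n ih =>
    intro hn u s c d h hs0 hNs hNc hNd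
    have hc2 := h.c_sq ht
    have hd2 := h.d_sq ht
    have hr0 : 0 < N s := lt_of_le_of_ne (N_nonneg s) (N_ne s hs0).symm
    have hc3 : N (c - 1) ≤ N s ^ 2 := by
      rw [N_sub_one hNc hc2, N_mul, N_pow]
      calc N t * N s ^ 2 ≤ 1 * N s ^ 2 := mul_le_mul_of_nonneg_right hNt (by positivity)
        _ = N s ^ 2 := one_mul _
    have hd3 : N (d - 1) ≤ N s ^ 2 := by
      rw [N_sub_one hNd hd2, N_mul, N_pow]
      calc N (q * t) * N s ^ 2 ≤ 1 * N s ^ 2 := mul_le_mul_of_nonneg_right hE (by positivity)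
        _ = N s ^ 2 := one_mul _
    by_cases h3 : 3 ∣ n
    · obtain ⟨k, rfl⟩ := h3
      obtain ⟨s', c', d', h', k1, k2, k3, k4⟩ :=
        multiplesT h0 ht hq hNt (N_nonneg s) hNs h le_rfl hc3 hd3 3
      have hN3s : N ((3:ℕ) * s) = N s / 3 := by
        rw [N_mul]
        push_cast
        rw [N_three]
        ring
      have hlt : N s ^ 3 < N s / 3 := by nlinarith
      have hs'N : N s' = N s / 3 := by
        rw [← hN3s]
        apply N_eq_of_sub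
        rw [hN3s]
        exact lt_of_le_of_lt k4 hlt
      have hs'0 : s' ≠ 0 := by
        rintro rfl
        rw [N_zero] at hs'N
        linarith
      have hk : k ≠ 0 := by
        rintro rfl
        simp at hn
      have hsq : N s ^ 2 < 1 := by nlinarith
      have := ih k (by omega) hk (((3:ℕ):ℝ) * u) s' c' d' h' hs'0
        (by rw [hs'N]; linarith) (lt_of_le_of_lt k2 hsq) (lt_of_le_of_lt k3 hsq)
      have e : ((3 * k : ℕ) : ℝ) * u = (k : ℝ) * (((3:ℕ):ℝ) * u) := by push_cast; ring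
      rw [e]
      exact this
    · obtain ⟨s', c', d', h', k1, k2, k3, k4⟩ :=
        multiplesT h0 ht hq hNt (N_nonneg s) hNs h le_rfl hc3 hd3 n
      intro hz
      have hz1 := h'.1
      rw [hz, mul_zero] at hz1
      have hz' : s' = 0 := by exact_mod_cast hz1.symm
      rw [hz', zero_sub, N_neg, N_mul, N_nat n h3, one_mul] at k4
      nlinarith

end Pool.Agent.RatTet.Dis
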