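import Pool.Agent.RatTet.DisFiber

set_option autoImplicit false

/-!
# An explicit rational curve on the surface, and its twice

For `M = κ ^ 2`, `0 < κ < 1`, the fibre over `P = (2 + 3 M) / (1 - M)` has a rational point.
-/

namespace Pool.Agent.RatTet.Dis

open Filter Topology

/-- the base coordinate -/
def PK (κ : ℚ) : ℚ := (2 + 3 * κ ^ 2) / (1 - κ ^ 2)

lemma fiberD_kappa (κ : ℚ) (h0 : 0 < κ) (h1 : κ < 1) (hN : N κ ≤ 1 / 3) : FiberD (PK κ) := by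
  set M : ℚ := κ ^ 2 with hM
  have hM0 : 0 < M := by positivity
  have hM1 : M < 1 := by rw [hM]; nlinarith
  have hNM : N M ≤ 1 / 3 := by
    rw [hM, N_pow]
    have := N_nonneg κ
    nlinarith
  have i1 : 0 < 1 - M := by linarith
  have i2 : 0 < 1 + 4 * M := by linarith
  have i3 : 0 < 2 + 3 * M := by linarith
  have i4 : 0 < 1 + 2 * M + 2 * M ^ 2 := by positivity
  have i5 : 0 < 2 + 4 * M - M ^ 2 := by nlinarith
  have hNM1 : N M ≤ 1 := by linarith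
  have hlt : (1:ℚ) / 3 < 1 := by norm_num
  have n1 : N (1 - M) = 1 := by
    apply N_one_add
    rw [show 1 - M - 1 = -M by ring, N_neg]
    linarith
  have small : ∀ a b : ℚ, N a ≤ 1 → N b = 1 → N (b + a * M) = 1 := by
    intro a b ha hb
    have h : N (b + a * M) = N b := by
      apply N_eq_of_sub
      rw [show b + a * M - b = a * M by ring, hb]
      have : N (a * M) ≤ 1 * (1 / 3) := N_mul_le ha hNM
      linarith
    rw [h, hb]
  have hnat : ∀ n : ℕ, N (n : ℚ) ≤ 1 := N_nat_le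
  have n4' : N 4 ≤ 1 := by exact_mod_cast hnat 4
  have n3' : N 3 ≤ 1 := by exact_mod_cast hnat 3
  have n2' : N 2 ≤ 1 := by exact_mod_cast hnat 2
  have n2 : N (1 + 4 * M) = 1 := small 4 1 n4' N_one
  have n3 : N (2 + 3 * M) = 1 := small 3 2 n3' N_two
  have n4 : N (1 + 2 * M + 2 * M ^ 2) = 1 := by
    have := small (2 + 2 * M) 1 (N_add n2' (by simpa using N_mul_le n2' hNM1)) N_one
    rw [show 1 + 2 * M + 2 * M ^ 2 = 1 + (2 + 2 * M) * M by ring]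
    exact this
  have n5 : N (2 + 4 * M - M ^ 2) = 1 := by
    have := small (4 - M) 2 (N_sub n4' hNM1) N_two
    rw [show 2 + 4 * M - M ^ 2 = 2 + (4 - M) * M by ring]
    exact this
  have i1' : 1 - M ≠ 0 := i1.ne'
  have i5' : 2 + 4 * M - M ^ 2 ≠ 0 := i5.ne'
  have n10 : N 10 = 1 := by exact_mod_cast N_nat 10 (by norm_num)
  have n20 : N 20 = 1 := by exact_mod_cast N_nat 20 (by norm_num)
  have n30 : N 30 ≤ 1 := by exact_mod_cast hnat 30
  have e1 : PK κ - 1 = (1 + 4 * M) / (1 - M) := by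
    unfold PK
    rw [← hM]
    field_simp
    ring
  have e2 : PK κ ^ 2 + 1 = 5 * (1 + 2 * M + 2 * M ^ 2) / (1 - M) ^ 2 := by
    unfold PK
    rw [← hM]
    field_simp
    ring
  have et : 1 / (2 * PK κ * (PK κ ^ 2 + 1))
      = (1 - M) ^ 3 / (10 * (2 + 3 * M) * (1 + 2 * M + 2 * M ^ 2)) := by
    rw [e2]
    unfold PK
    rw [← hM]
    field_simp
    ring
  have eq : (PK κ - 1) ^ 2 / (2 * (PK κ ^ 2 + 1))
      = (1 + 4 * M) ^ 2 / (10 * (1 + 2 * M + 2 * M ^ 2)) := by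
    rw [e1, e2]
    field_simp
    ring
  have hPgt : 1 < PK κ := by
    have : 0 < PK κ - 1 := by rw [e1]; exact div_pos i2 i1
    linarith
  refine fiberD_of_point (PK κ)
    (20 * κ * (1 + 2 * M + 2 * M ^ 2) * (2 + 3 * M) / ((1 - M) * (1 + 4 * M) * (2 + 4 * M - M ^ 2)))
    ((2 - 8 * M - 15 * M ^ 2 - 4 * M ^ 3) / ((1 + 4 * M) * (2 + 4 * M - M ^ 2)))
    ((2 + 2 * M + M ^ 2) / (2 + 4 * M - M ^ 2)) hPgt ?_ ?_ ?_ ?_ ?_ ?_ ?_ ?_ ?_
  · rw [et]
    have hk : (20 * κ * (1 + 2 * M + 2 * M ^ 2) * (2 + 3 * M)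
        / ((1 - M) * (1 + 4 * M) * (2 + 4 * M - M ^ 2))) ^ 2
        = 400 * M * ((1 + 2 * M + 2 * M ^ 2) * (2 + 3 * M)
          / ((1 - M) * (1 + 4 * M) * (2 + 4 * M - M ^ 2))) ^ 2 := by
      rw [hM]; ring
    rw [hk]
    obtain ⟨W, hW⟩ : ∃ W, W = 2 + 4 * M - M ^ 2 := ⟨_, rfl⟩
    obtain ⟨V, hV⟩ : ∃ V, V = 1 - M := ⟨_, rfl⟩
    rw [← hW] at i5' ⊢
    rw [← hV] at i1' ⊢
    field_simp
    rw [hW, hV]
    ring
  · rw [et, eq]
    have hk : (20 * κ * (1 + 2 * M + 2 * M ^ 2) * (2 + 3 * M)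
        / ((1 - M) * (1 + 4 * M) * (2 + 4 * M - M ^ 2))) ^ 2
        = 400 * M * ((1 + 2 * M + 2 * M ^ 2) * (2 + 3 * M)
          / ((1 - M) * (1 + 4 * M) * (2 + 4 * M - M ^ 2))) ^ 2 := by
      rw [hM]; ring
    rw [hk]
    obtain ⟨W, hW⟩ : ∃ W, W = 2 + 4 * M - M ^ 2 := ⟨_, rfl⟩
    obtain ⟨V, hV⟩ : ∃ V, V = 1 - M := ⟨_, rfl⟩
    rw [← hW] at i5' ⊢
    rw [← hV] at i1' ⊢
    field_simp
    rw [hW, hV]
    ring
  · exact div_pos (by positivity) i5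
  · exact div_ne_zero (by positivity) (mul_ne_zero (mul_ne_zero i1' i2.ne') i5')
  · rw [eq, N_div, N_pow, n2, N_mul, n10, n4]
    norm_num
  · rw [et, N_div, N_pow, n1, N_mul, N_mul, n10, n3, n4]
    norm_num
  · rw [N_div, N_mul, N_mul, N_mul, N_mul, N_mul, n20, n4, n3, n1, n2, n5]
    simpa using hN
  · have : (2 - 8 * M - 15 * M ^ 2 - 4 * M ^ 3) / ((1 + 4 * M) * (2 + 4 * M - M ^ 2)) - 1
        = -(M * (20 + 30 * M)) / ((1 + 4 * M) * (2 + 4 * M - M ^ 2)) := by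
      obtain ⟨W, hW⟩ : ∃ W, W = 2 + 4 * M - M ^ 2 := ⟨_, rfl⟩
      rw [← hW] at i5' ⊢
      field_simp
      rw [hW]
      ring
    rw [this, N_div, N_neg, N_mul (1 + 4 * M), n2, n5]
    have h2 : N (M * (20 + 30 * M)) ≤ 1 / 3 * 1 :=
      N_mul_le hNM (N_add n20.le (by simpa using N_mul_le n30 hNM1))
    simp only [mul_one, div_one]
    linarith
  · have : (2 + 2 * M + M ^ 2) / (2 + 4 * M - M ^ 2) - 1
        = (M * (2 * M - 2)) / (2 + 4 * M - M ^ 2) := by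
      obtain ⟨W, hW⟩ : ∃ W, W = 2 + 4 * M - M ^ 2 := ⟨_, rfl⟩
      rw [← hW] at i5' ⊢
      field_simp
      rw [hW]
      ring
    rw [this, N_div, n5]
    have h2 : N (M * (2 * M - 2)) ≤ 1 / 3 * 1 :=
      N_mul_le hNM (N_sub (by simpa using N_mul_le n2' hNM1) n2')
    simp only [div_one]
    linarith

end Pool.Agent.RatTet.Dis
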