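import Pool.Agent.RatTet.Geom

set_option autoImplicit false

namespace Pool.Agent.RatTet

open Filter Topology

/-- coordinates of the four vertices -/
def V0 (α δ k m1 m2 : ℚ) : Fin 4 → Fin 3 → ℚ :=
  ![![0, 0, α], ![0, 0, δ], ![k, m1, 0], ![k, m2, 0]]

lemma V0_edges {α δ k m1 m2 a1 a2 d1 d2 : ℚ}
    (ha1 : k ^ 2 + m1 ^ 2 + α ^ 2 = a1 ^ 2) (ha2 : k ^ 2 + m2 ^ 2 + α ^ 2 = a2 ^ 2)
    (hd1 : k ^ 2 + m1 ^ 2 + δ ^ 2 = d1 ^ 2) (hd2 : k ^ 2 + m2 ^ 2 + δ ^ 2 = d2 ^ 2) :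
    ∀ i j, IsSquare (dsq (V0 α δ k m1 m2) i j) := by
  intro i j
  fin_cases i <;> fin_cases j <;> simp [dsq, V0]
  · exact ⟨α - δ, by ring⟩
  · exact ⟨a1, by linear_combination ha1⟩
  · exact ⟨a2, by linear_combination ha2⟩
  · exact ⟨α - δ, by ring⟩
  · exact ⟨d1, by linear_combination hd1⟩
  · exact ⟨d2, by linear_combination hd2⟩
  · exact ⟨a1, by linear_combination ha1⟩
  · exact ⟨d1, by linear_combination hd1⟩
  · exact ⟨m1 - m2, by ring⟩
  · exact ⟨a2, by linear_combination ha2⟩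
  · exact ⟨d2, by linear_combination hd2⟩
  · exact ⟨m1 - m2, by ring⟩

lemma her_swap12 (x y z : ℚ) : her x y z = her y x z := by unfold her; ring
lemma her_swap23 (x y z : ℚ) : her x y z = her x z y := by unfold her; ring

lemma dsq_comm (V : Fin 4 → Fin 3 → ℚ) (i j : Fin 4) : dsq V i j = dsq V j i := by
  unfold dsq; ring

lemma dsq_self (V : Fin 4 → Fin 3 → ℚ) (i : Fin 4) : dsq V i i = 0 := by
  unfold dsq; ring

/-- it is enough to check the four faces -/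
lemma faces_of_sorted (V : Fin 4 → Fin 3 → ℚ)
    (h : ∀ i j k, i < j → j < k → IsSquare (her (dsq V i j) (dsq V j k) (dsq V i k))) :
    ∀ i j k, IsSquare (her (dsq V i j) (dsq V j k) (dsq V i k)) := by
  intro i j k
  by_cases hij : i = j
  · subst hij
    exact ⟨0, by rw [dsq_self]; unfold her; ring⟩
  by_cases hjk : j = k
  · subst hjk
    exact ⟨0, by rw [dsq_self]; unfold her; ring⟩
  by_cases hik : i = k
  · subst hik
    exact ⟨0, by rw [dsq_self, dsq_comm V j i]; unfold her; ring⟩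
  rcases lt_or_gt_of_ne hij with h1 | h1 <;> rcases lt_or_gt_of_ne hjk with h2 | h2 <;>
    rcases lt_or_gt_of_ne hik with h3 | h3
  · exact h i j k h1 h2
  · exact absurd (lt_trans h1 h2) (not_lt.mpr h3.le)
  · have := h i k j h3 h2
    rw [dsq_comm V k j] at this
    rw [show her (dsq V i j) (dsq V j k) (dsq V i k) = her (dsq V i k) (dsq V j k) (dsq V i j) by
      unfold her; ring]
    exact this
  · have := h k i j h3 h1
    rw [dsq_comm V k i, dsq_comm V k j] at this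
    rw [show her (dsq V i j) (dsq V j k) (dsq V i k) = her (dsq V i k) (dsq V i j) (dsq V j k) by
      unfold her; ring]
    exact this
  · have := h j i k h1 h3
    rw [dsq_comm V j i] at this
    rw [show her (dsq V i j) (dsq V j k) (dsq V i k) = her (dsq V i j) (dsq V i k) (dsq V j k) by
      unfold her; ring]
    exact this
  · have := h j k i h2 h3
    rw [dsq_comm V k i, dsq_comm V j i] at this
    rw [show her (dsq V i j) (dsq V j k) (dsq V i k) = her (dsq V j k) (dsq V i k) (dsq V i j) by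
      unfold her; ring]
    exact this
  · exact absurd (lt_trans h2 h1) (not_lt.mpr h3.le)
  · have := h k j i h2 h1
    rw [dsq_comm V k j, dsq_comm V j i, dsq_comm V k i] at this
    rw [show her (dsq V i j) (dsq V j k) (dsq V i k) = her (dsq V j k) (dsq V i j) (dsq V i k) by
      unfold her; ring]
    exact this

lemma V0_faces {α δ k m1 m2 sα sδ u1 u2 : ℚ}
    (hα : α ^ 2 + k ^ 2 = sα ^ 2) (hδ : δ ^ 2 + k ^ 2 = sδ ^ 2)
    (hu1 : k ^ 2 + m1 ^ 2 = u1 ^ 2) (hu2 : k ^ 2 + m2 ^ 2 = u2 ^ 2) :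
    ∀ i j l, IsSquare (her (dsq (V0 α δ k m1 m2) i j) (dsq (V0 α δ k m1 m2) j l)
      (dsq (V0 α δ k m1 m2) i l)) := by
  apply faces_of_sorted
  intro i j l hij hjl
  have d01 : dsq (V0 α δ k m1 m2) 0 1 = (α - δ) ^ 2 := by simp [dsq, V0]
  have d02 : dsq (V0 α δ k m1 m2) 0 2 = k ^ 2 + m1 ^ 2 + α ^ 2 := by simp [dsq, V0]
  have d03 : dsq (V0 α δ k m1 m2) 0 3 = k ^ 2 + m2 ^ 2 + α ^ 2 := by simp [dsq, V0]
  have d12 : dsq (V0 α δ k m1 m2) 1 2 = k ^ 2 + m1 ^ 2 + δ ^ 2 := by simp [dsq, V0]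
  have d13 : dsq (V0 α δ k m1 m2) 1 3 = k ^ 2 + m2 ^ 2 + δ ^ 2 := by simp [dsq, V0]
  have d23 : dsq (V0 α δ k m1 m2) 2 3 = (m1 - m2) ^ 2 := by simp [dsq, V0]
  have hc : (i = 0 ∧ j = 1 ∧ l = 2) ∨ (i = 0 ∧ j = 1 ∧ l = 3) ∨ (i = 0 ∧ j = 2 ∧ l = 3) ∨
      (i = 1 ∧ j = 2 ∧ l = 3) := by
    revert i j l
    decide
  rcases hc with ⟨rfl, rfl, rfl⟩ | ⟨rfl, rfl, rfl⟩ | ⟨rfl, rfl, rfl⟩ | ⟨rfl, rfl, rfl⟩
  · rw [d01, d12, d02]
    refine ⟨2 * (α - δ) * u1, ?_⟩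
    unfold her
    linear_combination 4 * (α - δ) ^ 2 * hu1
  · rw [d01, d13, d03]
    refine ⟨2 * (α - δ) * u2, ?_⟩
    unfold her
    linear_combination 4 * (α - δ) ^ 2 * hu2
  · rw [d02, d23, d03]
    refine ⟨2 * (m1 - m2) * sα, ?_⟩
    unfold her
    linear_combination 4 * (m1 - m2) ^ 2 * hα
  · rw [d12, d23, d13]
    refine ⟨2 * (m1 - m2) * sδ, ?_⟩
    unfold her
    linear_combination 4 * (m1 - m2) ^ 2 * hδ

lemma norm_small (e : Fin 3 → E3) (he : Orthonormal ℝ e) {x y z ε : ℝ} (hx : |x| < ε / 3)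
    (hy : |y| < ε / 3) (hz : |z| < ε / 3) : ‖x • e 0 + y • e 1 + z • e 2‖ < ε := by
  have h0 : ‖x • e 0‖ = |x| := by rw [norm_smul, he.1 0, mul_one, Real.norm_eq_abs]
  have h1 : ‖y • e 1‖ = |y| := by rw [norm_smul, he.1 1, mul_one, Real.norm_eq_abs]
  have h2 : ‖z • e 2‖ = |z| := by rw [norm_smul, he.1 2, mul_one, Real.norm_eq_abs]
  calc ‖x • e 0 + y • e 1 + z • e 2‖ ≤ ‖x • e 0 + y • e 1‖ + ‖z • e 2‖ := norm_add_le _ _
    _ ≤ ‖x • e 0‖ + ‖y • e 1‖ + ‖z • e 2‖ := by linarith [norm_add_le (x • e 0) (y • e 1)]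
    _ < ε := by rw [h0, h1, h2]; linarith

lemma exists_frame (O B C n : E3) (hn : ‖n‖ = 1) (hB : inner ℝ n (B - O) = 0)
    (hC : inner ℝ n (C - O) = 0) (hcol : ∀ t : ℝ, B - O ≠ t • (C - B)) (hBC : B ≠ C) :
    ∃ e : Fin 3 → E3, Orthonormal ℝ e ∧ e 2 = n ∧ ∃ k m1 m2 : ℝ, 0 < k ∧
      B = O + (k • e 0 + m1 • e 1 + (0:ℝ) • e 2) ∧ C = O + (k • e 0 + m2 • e 1 + (0:ℝ) • e 2) := by
  have hL : 0 < ‖C - B‖ := norm_pos_iff.mpr (sub_ne_zero.mpr hBC.symm)
  set L := ‖C - B‖ with hLdef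
  set e1 : E3 := L⁻¹ • (C - B) with he1
  have he1n : ‖e1‖ = 1 := by
    rw [he1, norm_smul, norm_inv, norm_norm]
    exact inv_mul_cancel₀ hL.ne'
  have hLe1 : L • e1 = C - B := by rw [he1, smul_smul, mul_inv_cancel₀ hL.ne', one_smul]
  set m1 : ℝ := inner ℝ e1 (B - O) with hm1
  set w : E3 := (B - O) - m1 • e1 with hw
  have hw0 : w ≠ 0 := by
    intro h
    apply hcol (m1 * L⁻¹)
    rw [hw, sub_eq_zero] at h
    rw [h, he1, smul_smul]
  have hk : 0 < ‖w‖ := norm_pos_iff.mpr hw0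
  set k := ‖w‖ with hkdef
  set e0 : E3 := k⁻¹ • w with he0
  have he0n : ‖e0‖ = 1 := by
    rw [he0, norm_smul, norm_inv, norm_norm]
    exact inv_mul_cancel₀ hk.ne'
  have hke0 : k • e0 = w := by rw [he0, smul_smul, mul_inv_cancel₀ hk.ne', one_smul]
  have h11 : inner ℝ e1 e1 = (1:ℝ) := by rw [real_inner_self_eq_norm_sq, he1n]; norm_num
  have h1w : inner ℝ e1 w = (0:ℝ) := by
    rw [hw, inner_sub_right, inner_smul_right, h11, ← hm1]
    ring
  have h01 : inner ℝ e0 e1 = (0:ℝ) := by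
    rw [he0, inner_smul_left, real_inner_comm, h1w]
    simp
  have hn1 : inner ℝ n e1 = (0:ℝ) := by
    have : C - B = (C - O) - (B - O) := by abel
    rw [he1, inner_smul_right, this, inner_sub_right, hB, hC]
    simp
  have hnw : inner ℝ n w = (0:ℝ) := by
    rw [hw, inner_sub_right, inner_smul_right, hB, hn1]
    simp
  have hn0 : inner ℝ n e0 = (0:ℝ) := by
    rw [he0, inner_smul_right, hnw]
    simp
  refine ⟨![e0, e1, n], ?_, rfl, k, m1, m1 + L, hk, ?_, ?_⟩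
  · rw [orthonormal_iff_ite]
    intro i j
    fin_cases i <;> fin_cases j <;>
      simp [he0n, he1n, hn, h01, hn1, hn0, real_inner_comm e0 e1, real_inner_comm n e0,
        real_inner_comm n e1]
  · simp only [Matrix.cons_val_zero, Matrix.cons_val_one, Matrix.cons_val]
    rw [hke0, hw]
    module
  · simp only [Matrix.cons_val_zero, Matrix.cons_val_one, Matrix.cons_val]
    rw [hke0, hw, add_smul, hLe1]
    module

lemma close_of {O : E3} {e : Fin 3 → E3} (he : Orthonormal ℝ e) {p : Fin 4 → E3}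
    {α0 δ0 k0 m10 m20 ε : ℝ} {α δ k m1 m2 : ℚ} (hε : 0 < ε)
    (hp0 : p 0 = O + ((0:ℝ) • e 0 + (0:ℝ) • e 1 + α0 • e 2))
    (hp1 : p 1 = O + ((0:ℝ) • e 0 + (0:ℝ) • e 1 + δ0 • e 2))
    (hp2 : p 2 = O + (k0 • e 0 + m10 • e 1 + (0:ℝ) • e 2))
    (hp3 : p 3 = O + (k0 • e 0 + m20 • e 1 + (0:ℝ) • e 2))
    (hα : |(α:ℝ) - α0| < ε / 3) (hδ : |(δ:ℝ) - δ0| < ε / 3) (hk : |(k:ℝ) - k0| < ε / 3)
    (hm1 : |(m1:ℝ) - m10| < ε / 3) (hm2 : |(m2:ℝ) - m20| < ε / 3) (i : Fin 4) :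
    dist (p i) (pt O e (V0 α δ k m1 m2) i) < ε := by
  have h0 : |(0:ℝ)| < ε / 3 := by rw [abs_zero]; positivity
  rw [dist_comm, dist_eq_norm]
  fin_cases i
  · have e1 : pt O e (V0 α δ k m1 m2) 0 - p 0 = (0:ℝ) • e 0 + (0:ℝ) • e 1 + ((α:ℝ) - α0) • e 2 := by
      rw [hp0]
      simp only [pt, V0, Matrix.cons_val_zero, Matrix.cons_val_one, Matrix.cons_val, Rat.cast_zero]
      module
    show ‖pt O e (V0 α δ k m1 m2) 0 - p 0‖ < ε
    rw [e1]
    exact norm_small e he h0 h0 hα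
  · have e1 : pt O e (V0 α δ k m1 m2) 1 - p 1 = (0:ℝ) • e 0 + (0:ℝ) • e 1 + ((δ:ℝ) - δ0) • e 2 := by
      rw [hp1]
      simp only [pt, V0, Matrix.cons_val_zero, Matrix.cons_val_one, Matrix.cons_val, Rat.cast_zero]
      module
    show ‖pt O e (V0 α δ k m1 m2) 1 - p 1‖ < ε
    rw [e1]
    exact norm_small e he h0 h0 hδ
  · have e1 : pt O e (V0 α δ k m1 m2) 2 - p 2
        = ((k:ℝ) - k0) • e 0 + ((m1:ℝ) - m10) • e 1 + (0:ℝ) • e 2 := by
      rw [hp2]
      simp only [pt, V0, Matrix.cons_val_zero, Matrix.cons_val_one, Matrix.cons_val, Rat.cast_zero]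
      module
    show ‖pt O e (V0 α δ k m1 m2) 2 - p 2‖ < ε
    rw [e1]
    exact norm_small e he hk hm1 h0
  · have e1 : pt O e (V0 α δ k m1 m2) 3 - p 3
        = ((k:ℝ) - k0) • e 0 + ((m2:ℝ) - m20) • e 1 + (0:ℝ) • e 2 := by
      rw [hp3]
      simp only [pt, V0, Matrix.cons_val_zero, Matrix.cons_val_one, Matrix.cons_val, Rat.cast_zero]
      module
    show ‖pt O e (V0 α δ k m1 m2) 3 - p 3‖ < ε
    rw [e1]
    exact norm_small e he hk hm2 h0

lemma approx_of_frame {O : E3} {e : Fin 3 → E3} (he : Orthonormal ℝ e) {p : Fin 4 → E3}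
    {α0 δ0 k0 m10 m20 h0 : ℝ} (hh : 0 < h0) (hk : 0 < k0)
    (mode : (α0 = 0 ∧ δ0 = h0) ∨ (α0 = h0 ∧ δ0 = -h0))
    (hp0 : p 0 = O + ((0:ℝ) • e 0 + (0:ℝ) • e 1 + α0 • e 2))
    (hp1 : p 1 = O + ((0:ℝ) • e 0 + (0:ℝ) • e 1 + δ0 • e 2))
    (hp2 : p 2 = O + (k0 • e 0 + m10 • e 1 + (0:ℝ) • e 2))
    (hp3 : p 3 = O + (k0 • e 0 + m20 • e 1 + (0:ℝ) • e 2))
    (ε : ℝ) (hε : 0 < ε) :
    ∃ V : Fin 4 → Fin 3 → ℚ, (∀ i j, IsSquare (dsq V i j)) ∧
      (∀ i j l, IsSquare (her (dsq V i j) (dsq V j l) (dsq V i l))) ∧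
      ∀ i, dist (p i) (pt O e V i) < ε := by
  obtain ⟨h, k, l, hhpos, hkpos, hl, hh', hk', hf⟩ := core h0 k0 hh hk (ε / 3) (by positivity)
  obtain ⟨m1, u1, v1, hm1, hu1, hv1⟩ := hf m10 (ε / 3) (by positivity)
  obtain ⟨m2, u2, v2, hm2, hu2, hv2⟩ := hf m20 (ε / 3) (by positivity)
  rcases mode with ⟨rfl, rfl⟩ | ⟨rfl, rfl⟩
  · refine ⟨V0 0 h k m1 m2, V0_edges (a1 := u1) (a2 := u2) (d1 := v1) (d2 := v2)
      (by linear_combination hu1) (by linear_combination hu2) (by linear_combination hv1)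
      (by linear_combination hv2), V0_faces (sα := k) (sδ := l) (u1 := u1) (u2 := u2)
      (by ring) hl hu1 hu2, ?_⟩
    exact close_of he hε hp0 hp1 hp2 hp3 (by simp; positivity) hh' hk' hm1 hm2
  · refine ⟨V0 h (-h) k m1 m2, V0_edges (a1 := v1) (a2 := v2) (d1 := v1) (d2 := v2)
      (by linear_combination hv1) (by linear_combination hv2) (by linear_combination hv1)
      (by linear_combination hv2), V0_faces (sα := l) (sδ := l) (u1 := u1) (u2 := u2)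
      hl (by linear_combination hl) hu1 hu2, ?_⟩
    refine close_of he hε hp0 hp1 hp2 hp3 hh' ?_ hk' hm1 hm2
    push_cast
    rw [show -(h:ℝ) - -α0 = -((h:ℝ) - α0) by ring, abs_neg]
    exact hh'

/-- no degenerate position -/
lemma not_collinear {p : Fin 4 → E3} (hp : AffineIndependent ℝ p) (lam t : ℝ) :
    p 2 - ((1 - lam) • p 0 + lam • p 1) ≠ t • (p 3 - p 2) := by
  intro h
  rw [affineIndependent_iff] at hp
  have h1 := hp Finset.univ ![-(1 - lam), -lam, 1 + t, -t] (by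
    rw [Fin.sum_univ_four]
    simp only [Matrix.cons_val_zero, Matrix.cons_val_one, Matrix.cons_val]
    ring) (by
    rw [Fin.sum_univ_four]
    simp only [Matrix.cons_val_zero, Matrix.cons_val_one, Matrix.cons_val]
    have h2 : p 2 - ((1 - lam) • p 0 + lam • p 1) - t • (p 3 - p 2) = 0 := sub_eq_zero.mpr h
    rw [← h2]
    module)
  have h2 := h1 2 (Finset.mem_univ _)
  have h3 := h1 3 (Finset.mem_univ _)
  simp only [Matrix.cons_val] at h2 h3
  linarith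

/-- the edge `p 0 p 1` is perpendicular to the face `p 0 p 2 p 3` -/
def PerpStd (p : Fin 4 → E3) : Prop :=
  inner ℝ (p 1 - p 0) (p 2 - p 0) = 0 ∧ inner ℝ (p 1 - p 0) (p 3 - p 0) = 0

/-- `p 0` and `p 1` are equidistant from `p 2` and from `p 3` -/
def SymStd (p : Fin 4 → E3) : Prop :=
  dist (p 0) (p 2) = dist (p 1) (p 2) ∧ dist (p 0) (p 3) = dist (p 1) (p 3)

lemma approx_std {p : Fin 4 → E3} (hp : AffineIndependent ℝ p) (h : PerpStd p ∨ SymStd p) :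
    ∃ (O : E3) (e : Fin 3 → E3), Orthonormal ℝ e ∧ ∀ ε : ℝ, 0 < ε →
      ∃ V : Fin 4 → Fin 3 → ℚ, (∀ i j, IsSquare (dsq V i j)) ∧
      (∀ i j l, IsSquare (her (dsq V i j) (dsq V j l) (dsq V i l))) ∧
      ∀ i, dist (p i) (pt O e V i) < ε := by
  have h01 : p 0 ≠ p 1 := hp.injective.ne (by decide)
  have h23 : p 2 ≠ p 3 := hp.injective.ne (by decide)
  have hL : 0 < ‖p 1 - p 0‖ := norm_pos_iff.mpr (sub_ne_zero.mpr h01.symm)
  rcases h with ⟨hB, hC⟩ | ⟨hB, hC⟩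
  · set L := ‖p 1 - p 0‖ with hLdef
    set n : E3 := L⁻¹ • (p 1 - p 0) with hn
    have hn1 : ‖n‖ = 1 := by
      rw [hn, norm_smul, norm_inv, norm_norm]
      exact inv_mul_cancel₀ hL.ne'
    have hLn : L • n = p 1 - p 0 := by rw [hn, smul_smul, mul_inv_cancel₀ hL.ne', one_smul]
    obtain ⟨e, he, he2, k, m1, m2, hk, h2, h3⟩ := exists_frame (p 0) (p 2) (p 3) n hn1
      (by rw [hn, inner_smul_left, hB]; simp) (by rw [hn, inner_smul_left, hC]; simp)
      (fun t => by simpa using not_collinear hp 0 t) h23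
    refine ⟨p 0, e, he, fun ε hε => approx_of_frame he hL hk (Or.inl ⟨rfl, rfl⟩) ?_ ?_ h2 h3 ε hε⟩
    · module
    · rw [he2, hLn]
      module
  · have h01' : 0 < ‖p 0 - p 1‖ := norm_pos_iff.mpr (sub_ne_zero.mpr h01)
    set L := ‖p 0 - p 1‖ with hLdef
    set n : E3 := L⁻¹ • (p 0 - p 1) with hn
    set O : E3 := (1 - (1/2:ℝ)) • p 0 + (1/2:ℝ) • p 1 with hO
    have hn1 : ‖n‖ = 1 := by
      rw [hn, norm_smul, norm_inv, norm_norm]
      exact inv_mul_cancel₀ h01'.ne'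
    have hLn : L • n = p 0 - p 1 := by rw [hn, smul_smul, mul_inv_cancel₀ h01'.ne', one_smul]
    have perp : ∀ X : E3, dist (p 0) X = dist (p 1) X → inner ℝ n (X - O) = 0 := by
      intro X hX
      rw [hn, inner_smul_left]
      have e1 : inner ℝ (p 0 - p 1) (X - O) = (0:ℝ) := by
        have e2 : p 0 - p 1 = (p 0 - X) - (p 1 - X) := by abel
        have e3 : X - O = (-(1/2:ℝ)) • ((p 0 - X) + (p 1 - X)) := by rw [hO]; module
        rw [e2, e3, inner_smul_right, inner_sub_left, inner_add_right, inner_add_right,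
          real_inner_self_eq_norm_sq, real_inner_self_eq_norm_sq,
          real_inner_comm (p 0 - X) (p 1 - X)]
        rw [dist_eq_norm, dist_eq_norm] at hX
        rw [hX]
        ring
      rw [e1]
      simp
    obtain ⟨e, he, he2, k, m1, m2, hk, h2, h3⟩ := exists_frame O (p 2) (p 3) n hn1
      (perp _ hB) (perp _ hC) (fun t => not_collinear hp (1/2) t) h23
    refine ⟨O, e, he, fun ε hε => approx_of_frame he (h0 := L / 2) (by positivity) hk
      (Or.inr ⟨rfl, rfl⟩) ?_ ?_ h2 h3 ε hε⟩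
    · have : (L / 2) • e 2 = (1/2:ℝ) • (p 0 - p 1) := by
        rw [he2, ← hLn]
        module
      rw [this, hO]
      module
    · have : (-(L / 2)) • e 2 = (-(1/2:ℝ)) • (p 0 - p 1) := by
        rw [he2, ← hLn]
        module
      rw [this, hO]
      module

theorem main (p : Fin 4 → E3) (hp : AffineIndependent ℝ p) (σ : Equiv.Perm (Fin 4))
    (h : PerpStd (p ∘ σ) ∨ SymStd (p ∘ σ)) (ε : ℝ) (hε : 0 < ε) :
    ∃ q : Fin 4 → E3,
      AffineIndependent ℝ q ∧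
      (∀ i, dist (p i) (q i) < ε) ∧
      (∀ i j, ∃ r : ℚ, (r : ℝ) = dist (q i) (q j)) ∧
      (∀ i j k, ∃ r : ℚ, (r : ℝ) =
        Real.sqrt ((dist (q i) (q j) + dist (q j) (q k) + dist (q i) (q k)) *
          (-dist (q i) (q j) + dist (q j) (q k) + dist (q i) (q k)) *
          (dist (q i) (q j) - dist (q j) (q k) + dist (q i) (q k)) *
          (dist (q i) (q j) + dist (q j) (q k) - dist (q i) (q k))) / 4) ∧
      (∃ r : ℚ, (r : ℝ) =
        |Matrix.det (Matrix.of (fun a b : Fin 3 =>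
          WithLp.ofLp (q a.succ - q 0) b))| / 6) := by
  have hp' : AffineIndependent ℝ (p ∘ σ) := (affineIndependent_equiv σ).mpr hp
  obtain ⟨O, e, he, hV⟩ := approx_std hp' h
  obtain ⟨ε1, hε1, hball⟩ := Metric.isOpen_iff.mp
    (isOpen_setOfPred_affineIndependent (𝕜 := ℝ) (E := E3) (ι := Fin 4)) p hp
  obtain ⟨V, h1, h2, h3⟩ := hV (min ε ε1) (lt_min hε hε1)
  have hclose : ∀ i, dist (p i) (pt O e (fun i => V (σ.symm i)) i) < min ε ε1 := by
    intro i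
    have := h3 (σ.symm i)
    simpa [pt] using this
  obtain ⟨k1, k2, k3⟩ := finish O e he (fun i => V (σ.symm i))
    (fun i j => h1 (σ.symm i) (σ.symm j))
    (fun i j l => h2 (σ.symm i) (σ.symm j) (σ.symm l))
  refine ⟨pt O e (fun i => V (σ.symm i)), ?_, fun i => lt_of_lt_of_le (hclose i) (min_le_left _ _),
    k1, k2, k3⟩
  apply hball
  rw [Metric.mem_ball, dist_comm, dist_pi_lt_iff hε1]
  exact fun i => lt_of_lt_of_le (hclose i) (min_le_right _ _)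

end Pool.Agent.RatTet
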