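import Pool.Agent.RatTet.Core

set_option autoImplicit false

namespace Pool.Agent.RatTet

open Filter Topology

abbrev E3 := EuclideanSpace ℝ (Fin 3)

/-- squared distance of two coordinate vectors -/
def dsq (V : Fin 4 → Fin 3 → ℚ) (i j : Fin 4) : ℚ :=
  (V i 0 - V j 0) ^ 2 + (V i 1 - V j 1) ^ 2 + (V i 2 - V j 2) ^ 2

/-- Heron's polynomial in the squared side lengths -/
def her (x y z : ℚ) : ℚ := 2 * x * y + 2 * y * z + 2 * z * x - x ^ 2 - y ^ 2 - z ^ 2

lemma norm_frame (e : Fin 3 → E3) (he : Orthonormal ℝ e) (x y z : ℝ) :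
    ‖x • e 0 + y • e 1 + z • e 2‖ ^ 2 = x ^ 2 + y ^ 2 + z ^ 2 := by
  have h := orthonormal_iff_ite.mp he
  rw [← real_inner_self_eq_norm_sq]
  simp only [inner_add_left, inner_add_right, inner_smul_left, inner_smul_right, h]
  simp
  ring

/-- the point with coordinates `V i` in the frame `e` at `O` -/
noncomputable def pt (O : E3) (e : Fin 3 → E3) (V : Fin 4 → Fin 3 → ℚ) (i : Fin 4) : E3 :=
  O + ((V i 0 : ℝ) • e 0 + (V i 1 : ℝ) • e 1 + (V i 2 : ℝ) • e 2)

lemma pt_sub (O : E3) (e : Fin 3 → E3) (V : Fin 4 → Fin 3 → ℚ) (i j : Fin 4) :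
    pt O e V i - pt O e V j = ((V i 0 : ℝ) - V j 0) • e 0 + ((V i 1 : ℝ) - V j 1) • e 1
      + ((V i 2 : ℝ) - V j 2) • e 2 := by
  unfold pt
  module

lemma dist_pt (O : E3) (e : Fin 3 → E3) (he : Orthonormal ℝ e) (V : Fin 4 → Fin 3 → ℚ)
    (i j : Fin 4) : dist (pt O e V i) (pt O e V j) ^ 2 = (dsq V i j : ℝ) := by
  rw [dist_eq_norm, pt_sub, norm_frame e he]
  unfold dsq
  push_cast
  rfl

lemma det_frame (e : Fin 3 → E3) (he : Orthonormal ℝ e) :
    |Matrix.det (Matrix.of (fun j b : Fin 3 => (e j) b))| = 1 := by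
  set M := Matrix.of (fun j b : Fin 3 => (e j) b) with hM
  have h : M * M.transpose = 1 := by
    ext i j
    have h1 := orthonormal_iff_ite.mp he j i
    rw [Matrix.mul_apply, Matrix.one_apply]
    rw [PiLp.inner_apply] at h1
    simp only [Matrix.transpose_apply, hM, Matrix.of_apply]
    simp only [RCLike.inner_apply, conj_trivial] at h1
    rw [h1]
    simp [eq_comm]
  have h2 : M.det * M.det = 1 := by
    have := congrArg Matrix.det h
    rw [Matrix.det_mul, Matrix.det_transpose, Matrix.det_one] at this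
    exact this
  rcases mul_self_eq_one_iff.mp h2 with h3 | h3 <;> simp [h3]

lemma sqrt_heron {a b c : ℝ} {x y z t : ℚ} (ha : a ^ 2 = x) (hb : b ^ 2 = y) (hc : c ^ 2 = z)
    (ht : her x y z = t * t) :
    ((|t| / 4 : ℚ) : ℝ) = Real.sqrt ((a + b + c) * (-a + b + c) * (a - b + c) * (a + b - c)) / 4 := by
  have e : (a + b + c) * (-a + b + c) * (a - b + c) * (a + b - c) = (t:ℝ) ^ 2 := by
    have h1 : (a + b + c) * (-a + b + c) * (a - b + c) * (a + b - c)
        = 2 * a ^ 2 * b ^ 2 + 2 * b ^ 2 * c ^ 2 + 2 * c ^ 2 * a ^ 2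
          - (a ^ 2) ^ 2 - (b ^ 2) ^ 2 - (c ^ 2) ^ 2 := by ring
    rw [h1, ha, hb, hc]
    have h2 : ((her x y z : ℚ) : ℝ) = t * t := by rw [ht]; push_cast; rfl
    unfold her at h2
    push_cast at h2
    linear_combination h2
  rw [e, Real.sqrt_sq_eq_abs]
  push_cast
  rfl

lemma finish (O : E3) (e : Fin 3 → E3) (he : Orthonormal ℝ e) (V : Fin 4 → Fin 3 → ℚ)
    (hE : ∀ i j, IsSquare (dsq V i j))
    (hA : ∀ i j k, IsSquare (her (dsq V i j) (dsq V j k) (dsq V i k))) :
    (∀ i j, ∃ r : ℚ, (r : ℝ) = dist (pt O e V i) (pt O e V j)) ∧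
    (∀ i j k, ∃ r : ℚ, (r : ℝ) =
      Real.sqrt ((dist (pt O e V i) (pt O e V j) + dist (pt O e V j) (pt O e V k)
            + dist (pt O e V i) (pt O e V k)) *
        (-dist (pt O e V i) (pt O e V j) + dist (pt O e V j) (pt O e V k)
            + dist (pt O e V i) (pt O e V k)) *
        (dist (pt O e V i) (pt O e V j) - dist (pt O e V j) (pt O e V k)
            + dist (pt O e V i) (pt O e V k)) *
        (dist (pt O e V i) (pt O e V j) + dist (pt O e V j) (pt O e V k)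
            - dist (pt O e V i) (pt O e V k))) / 4) ∧
    (∃ r : ℚ, (r : ℝ) = |Matrix.det (Matrix.of (fun a b : Fin 3 =>
        WithLp.ofLp (pt O e V a.succ - pt O e V 0) b))| / 6) := by
  refine ⟨?_, ?_, ?_⟩
  · intro i j
    obtain ⟨r, hr⟩ := hE i j
    refine ⟨|r|, ?_⟩
    have h := dist_pt O e he V i j
    rw [hr] at h
    have h2 : dist (pt O e V i) (pt O e V j) ^ 2 = |(r:ℝ)| ^ 2 := by
      rw [h, sq_abs]
      push_cast
      ring
    have h3 := (pow_left_inj₀ dist_nonneg (abs_nonneg _) two_ne_zero).mp h2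
    rw [h3]
    push_cast
    rfl
  · intro i j k
    obtain ⟨t, ht⟩ := hA i j k
    exact ⟨|t| / 4, sqrt_heron (dist_pt O e he V i j) (dist_pt O e he V j k)
      (dist_pt O e he V i k) ht⟩
  · have hmat : Matrix.of (fun a b : Fin 3 => WithLp.ofLp (pt O e V a.succ - pt O e V 0) b)
        = Matrix.of (fun a j : Fin 3 => ((V a.succ j - V 0 j : ℚ) : ℝ))
          * Matrix.of (fun j b : Fin 3 => (e j) b) := by
      ext a b
      rw [Matrix.mul_apply, Matrix.of_apply, pt_sub, Fin.sum_univ_three]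
      simp
    rw [hmat, Matrix.det_mul, abs_mul, det_frame e he, mul_one]
    refine ⟨|Matrix.det (Matrix.of (fun a j : Fin 3 => V a.succ j - V 0 j))| / 6, ?_⟩
    push_cast
    congr 3
    ext a j
    simp

end Pool.Agent.RatTet
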