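import Pool.Agent.RatTet.Addition

set_option autoImplicit false

namespace Pool.Agent.RatTet

open Filter Topology

/-- the real points whose three Jacobi functions are rational -/
def grp (q : ℚ) (h0 : 0 ≤ q) (J : Jac (q : ℝ)) : AddSubgroup ℝ where
  carrier := {u | ∃ s c d : ℚ, J.S u = s ∧ J.C u = c ∧ J.D u = d}
  zero_mem' := ⟨0, 1, 1, by simp [J.S0], by simp [J.C0], by simp [J.D0]⟩
  neg_mem' := by
    rintro u ⟨s, c, d, hs, hc, hd⟩
    exact ⟨-s, c, d, by rw [J.Sneg, hs]; push_cast; rfl, by rw [J.Cneg, hc], by rw [J.Dneg, hd]⟩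
  add_mem' := by
    rintro u v ⟨s1, c1, d1, hs1, hc1, hd1⟩ ⟨s2, c2, d2, hs2, hc2, hd2⟩
    have h0' : (0:ℝ) ≤ q := by exact_mod_cast h0
    have hp := J.den_pos h0' u v
    have hS := J.add_S h0' u v
    have hC := J.add_C h0' u v
    have hD := J.add_D h0' u v
    refine ⟨(s1 * c2 * d2 + s2 * c1 * d1) / (1 - q * s1 ^ 2 * s2 ^ 2),
      (c1 * c2 - s1 * s2 * d1 * d2) / (1 - q * s1 ^ 2 * s2 ^ 2),
      (d1 * d2 - q * s1 * s2 * c1 * c2) / (1 - q * s1 ^ 2 * s2 ^ 2), ?_, ?_, ?_⟩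
    · rw [eq_div_of_mul_eq hp.ne' hS, hs1, hs2, hc1, hc2, hd1, hd2]
      push_cast
      rfl
    · rw [eq_div_of_mul_eq hp.ne' hC, hs1, hs2, hc1, hc2, hd1, hd2]
      push_cast
      rfl
    · rw [eq_div_of_mul_eq hp.ne' hD, hs1, hs2, hc1, hc2, hd1, hd2]
      push_cast
      rfl

lemma mem_grp {q : ℚ} {h0 : 0 ≤ q} {J : Jac (q : ℝ)} {u : ℝ} :
    u ∈ grp q h0 J ↔ ∃ s c d : ℚ, J.S u = s ∧ J.C u = c ∧ J.D u = d := Iff.rfl

/-- the half period -/
lemma exists_half_period {q : ℝ} (h0 : 0 ≤ q) (J : Jac q) :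
    ∃ w : ℝ, J.S w = 0 ∧ J.C w = -1 ∧ J.D w = 1 ∧ w ≠ 0 ∧ (∀ n : ℕ, J.S (n * w) = 0) := by
  obtain ⟨w, hs, hc⟩ := J.surj 0 (-1) (by norm_num)
  have hd : J.D w = 1 := by
    have h1 := J.hD w
    rw [hs] at h1
    have h2 := J.Dpos w
    nlinarith
  refine ⟨w, hs, hc, hd, ?_, ?_⟩
  · rintro rfl
    rw [J.C0] at hc
    norm_num at hc
  · intro n
    induction n with
    | zero => simp [J.S0]
    | succ n ih =>
      have h := J.add_S h0 (n * w) w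
      rw [ih, hs] at h
      push_cast
      rw [add_mul, one_mul]
      simpa using h

lemma grp_dense {q : ℚ} (h0 : 0 ≤ q) (J : Jac (q : ℝ)) (u1 : ℝ) (hu1 : u1 ∈ grp q h0 J)
    (hinf : ∀ n : ℕ, n ≠ 0 → J.S (n * u1) ≠ 0) : Dense (grp q h0 J : Set ℝ) := by
  have h0' : (0:ℝ) ≤ q := by exact_mod_cast h0
  rcases AddSubgroup.dense_or_cyclic (grp q h0 J) with h | ⟨a, ha⟩
  · exact h
  · exfalso
    obtain ⟨w, hs, hc, hd, hw0, hw⟩ := exists_half_period h0' J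
    have hwm : w ∈ grp q h0 J := ⟨0, -1, 1, by simp [hs], by simp [hc], by simp [hd]⟩
    rw [ha, AddSubgroup.mem_closure_singleton] at hu1 hwm
    obtain ⟨m, hm⟩ := hu1
    obtain ⟨n, hn⟩ := hwm
    have hn0 : n ≠ 0 := by
      rintro rfl
      simp at hn
      exact hw0 hn.symm
    -- n u1 = m w
    have e : (n : ℝ) * u1 = m * w := by
      rw [← hm, ← hn]
      simp only [zsmul_eq_mul]
      ring
    have hSm : ∀ k : ℤ, J.S (k * w) = 0 := by
      intro k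
      rcases Int.eq_nat_or_neg k with ⟨j, rfl | rfl⟩
      · simpa using hw j
      · push_cast
        rw [neg_mul, J.Sneg, hw j, neg_zero]
    have hz : J.S (n * u1) = 0 := by rw [e, hSm]
    rcases Int.eq_nat_or_neg n with ⟨j, rfl | rfl⟩
    · have hj : j ≠ 0 := by simpa using hn0
      exact hinf j hj (by simpa using hz)
    · have hj : j ≠ 0 := by simpa using hn0
      apply hinf j hj
      push_cast at hz
      rw [neg_mul, J.Sneg] at hz
      linarith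

lemma fiber_dense {q : ℚ} (h0 : 0 ≤ q) (J : Jac (q : ℝ)) (u1 : ℝ) (hu1 : u1 ∈ grp q h0 J)
    (hinf : ∀ n : ℕ, n ≠ 0 → J.S (n * u1) ≠ 0) (x0 : ℝ) (ε : ℝ) (hε : 0 < ε) :
    ∃ s c d : ℚ, s ^ 2 + c ^ 2 = 1 ∧ d ^ 2 + q * s ^ 2 = 1 ∧ c ≠ 0 ∧ |(s / c : ℝ) - x0| < ε := by
  have hdense := grp_dense h0 J u1 hu1 hinf
  have hpos : 0 < Real.sqrt (1 + x0 ^ 2) := Real.sqrt_pos.mpr (by positivity)
  have hsq : Real.sqrt (1 + x0 ^ 2) ^ 2 = 1 + x0 ^ 2 := Real.sq_sqrt (by positivity)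
  obtain ⟨u, hus, huc⟩ := J.surj (x0 / Real.sqrt (1 + x0 ^ 2)) (1 / Real.sqrt (1 + x0 ^ 2)) (by
    rw [div_pow, div_pow, hsq]
    field_simp
    ring)
  have hc0 : J.C u ≠ 0 := by rw [huc]; positivity
  have hcont : ContinuousAt (fun t => J.S t / J.C t) u :=
    (J.dS u).continuousAt.div (J.dC u).continuousAt hc0
  have hval : J.S u / J.C u = x0 := by
    rw [hus, huc]
    field_simp
  have h1 : ∀ᶠ t in 𝓝 u, |J.S t / J.C t - x0| < ε := by
    have := hcont.tendsto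
    rw [hval] at this
    have h2 := Metric.tendsto_nhds.mp this ε hε
    filter_upwards [h2] with t ht
    simpa [Real.dist_eq] using ht
  have h2 : ∀ᶠ t in 𝓝 u, J.C t ≠ 0 := (J.dC u).continuousAt.eventually_ne hc0
  obtain ⟨t, ⟨ht1, ht2⟩, htm⟩ := mem_closure_iff_nhds.mp (hdense u) _ (h1.and h2)
  obtain ⟨s, c, d, hs, hc, hd⟩ := htm
  refine ⟨s, c, d, ?_, ?_, ?_, ?_⟩
  · have := J.hC t
    rw [hs, hc] at this
    have h3 : (s:ℝ) ^ 2 + (c:ℝ) ^ 2 = 1 := by linarith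
    exact_mod_cast h3
  · have := J.hD t
    rw [hs, hd] at this
    have h3 : (d:ℝ) ^ 2 + q * (s:ℝ) ^ 2 = 1 := by linarith
    exact_mod_cast h3
  · intro h
    apply ht2
    rw [hc, h]
    simp
  · rw [← hs, ← hc]
    exact ht1

end Pool.Agent.RatTet
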