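import Mathlib

set_option autoImplicit false

namespace Pool.Agent.RatTet

open Filter Topology

noncomputable section

/-- `sqrt (1 - q sin^2 t)` -/
def dl (q t : ℝ) : ℝ := Real.sqrt (1 - q * Real.sin t ^ 2)

lemma dl_arg_pos {q : ℝ} (h0 : 0 ≤ q) (h1 : q < 1) (t : ℝ) : 0 < 1 - q * Real.sin t ^ 2 := by
  have h2 := Real.sin_sq_le_one t
  have h3 : q * Real.sin t ^ 2 ≤ q * 1 := mul_le_mul_of_nonneg_left h2 h0
  linarith

lemma dl_pos {q : ℝ} (h0 : 0 ≤ q) (h1 : q < 1) (t : ℝ) : 0 < dl q t :=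
  Real.sqrt_pos.mpr (dl_arg_pos h0 h1 t)

lemma dl_sq {q : ℝ} (h0 : 0 ≤ q) (h1 : q < 1) (t : ℝ) : dl q t ^ 2 = 1 - q * Real.sin t ^ 2 :=
  Real.sq_sqrt (dl_arg_pos h0 h1 t).le

lemma dl_le_one {q : ℝ} (h0 : 0 ≤ q) (t : ℝ) : dl q t ≤ 1 := by
  unfold dl
  rw [Real.sqrt_le_left (by norm_num)]
  nlinarith [mul_nonneg h0 (sq_nonneg (Real.sin t))]

lemma dl_neg (q t : ℝ) : dl q (-t) = dl q t := by simp [dl]

lemma continuous_dl (q : ℝ) : Continuous (dl q) := by
  unfold dl; fun_prop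

lemma hasDerivAt_dl {q : ℝ} (h0 : 0 ≤ q) (h1 : q < 1) (t : ℝ) :
    HasDerivAt (dl q) (-(q * Real.sin t * Real.cos t) / dl q t) t := by
  have h : HasDerivAt (fun t => 1 - q * Real.sin t ^ 2) (-(q * (2 * Real.sin t * Real.cos t))) t := by
    have h2 := ((Real.hasDerivAt_sin t).pow 2).const_mul q
    have h3 := h2.const_sub 1
    exact h3.congr_deriv (by push_cast; ring)
  have h4 := h.sqrt (dl_arg_pos h0 h1 t).ne'
  have hp := dl_pos h0 h1 t
  have e : -(q * Real.sin t * Real.cos t) / dl q t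
      = -(q * (2 * Real.sin t * Real.cos t)) / (2 * Real.sqrt (1 - q * Real.sin t ^ 2)) := by
    unfold dl at hp ⊢
    field_simp
  rw [e]
  exact h4

/-- the elliptic integral of the first kind -/
def Phi (q x : ℝ) : ℝ := ∫ t in (0:ℝ)..x, 1 / dl q t

lemma hasDerivAt_Phi {q : ℝ} (h0 : 0 ≤ q) (h1 : q < 1) (x : ℝ) :
    HasDerivAt (Phi q) (1 / dl q x) x := by
  have hc : Continuous (fun t => 1 / dl q t) :=
    continuous_const.div (continuous_dl q) (fun t => (dl_pos h0 h1 t).ne')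
  exact (hc.integral_hasStrictDerivAt 0 x).hasDerivAt

lemma Phi_zero (q : ℝ) : Phi q 0 = 0 := by simp [Phi]

lemma Phi_neg (q x : ℝ) : Phi q (-x) = - Phi q x := by
  unfold Phi
  have h := intervalIntegral.integral_comp_neg (fun t => 1 / dl q t) (a := 0) (b := x)
  simp only [dl_neg, neg_zero] at h
  rw [h, intervalIntegral.integral_symm]

lemma one_le_inv_dl {q : ℝ} (h0 : 0 ≤ q) (h1 : q < 1) (t : ℝ) : 1 ≤ 1 / dl q t := by
  rw [le_div_iff₀ (dl_pos h0 h1 t)]
  simpa using dl_le_one h0 t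

lemma strictMono_Phi {q : ℝ} (h0 : 0 ≤ q) (h1 : q < 1) : StrictMono (Phi q) := by
  apply strictMono_of_deriv_pos
  intro x
  rw [(hasDerivAt_Phi h0 h1 x).deriv]
  exact lt_of_lt_of_le one_pos (one_le_inv_dl h0 h1 x)

lemma monotone_Phi_sub {q : ℝ} (h0 : 0 ≤ q) (h1 : q < 1) : Monotone (fun x => Phi q x - x) := by
  apply monotone_of_deriv_nonneg
  · intro x
    exact ((hasDerivAt_Phi h0 h1 x).sub (hasDerivAt_id x)).differentiableAt
  · intro x
    have hd : HasDerivAt (fun x => Phi q x - x) (1 / dl q x - 1) x :=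
      (hasDerivAt_Phi h0 h1 x).sub (hasDerivAt_id x)
    rw [hd.deriv]
    have := one_le_inv_dl h0 h1 x
    linarith

lemma continuous_Phi {q : ℝ} (h0 : 0 ≤ q) (h1 : q < 1) : Continuous (Phi q) :=
  continuous_iff_continuousAt.mpr fun x => (hasDerivAt_Phi h0 h1 x).continuousAt

lemma surjective_Phi {q : ℝ} (h0 : 0 ≤ q) (h1 : q < 1) : Function.Surjective (Phi q) := by
  apply (continuous_Phi h0 h1).surjective
  · apply tendsto_atTop_mono' atTop _ tendsto_id
    filter_upwards [eventually_ge_atTop (0:ℝ)] with x hx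
    have := monotone_Phi_sub h0 h1 hx
    simp only [Phi_zero] at this
    simp only [id]
    linarith
  · apply tendsto_atBot_mono' atBot _ tendsto_id
    filter_upwards [eventually_le_atBot (0:ℝ)] with x hx
    have := monotone_Phi_sub h0 h1 hx
    simp only [Phi_zero] at this
    simp only [id]
    linarith

/-- existence of the amplitude function -/
lemma exists_am {q : ℝ} (h0 : 0 ≤ q) (h1 : q < 1) : ∃ A : ℝ → ℝ,
    (∀ u, HasDerivAt A (dl q (A u)) u) ∧ A 0 = 0 ∧ (∀ u, A (-u) = - A u) ∧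
    Function.Surjective A := by
  let OI := StrictMono.orderIsoOfSurjective (Phi q) (strictMono_Phi h0 h1) (surjective_Phi h0 h1)
  have hOI : ∀ x, OI x = Phi q x := fun x => rfl
  refine ⟨fun u => OI.symm u, ?_, ?_, ?_, ?_⟩
  · intro u
    have h := HasDerivAt.of_local_left_inverse (f := Phi q) (g := fun u => OI.symm u)
      (f' := 1 / dl q (OI.symm u)) (a := u) (OI.symm.continuous.continuousAt)
      (hasDerivAt_Phi h0 h1 _) (by have := dl_pos h0 h1 (OI.symm u); positivity)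
      (Eventually.of_forall fun y => by
        have := OI.apply_symm_apply y
        rw [hOI] at this
        exact this)
    simpa using h
  · have : OI 0 = 0 := by rw [hOI, Phi_zero]
    show OI.symm 0 = 0
    rw [OrderIso.symm_apply_eq]
    exact this.symm
  · intro u
    show OI.symm (-u) = - OI.symm u
    rw [OrderIso.symm_apply_eq, hOI, Phi_neg, ← hOI, OI.apply_symm_apply]
  · exact OI.symm.surjective

/-- The three real Jacobi functions with parameter `q`. -/
structure Jac (q : ℝ) where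
  S : ℝ → ℝ
  C : ℝ → ℝ
  D : ℝ → ℝ
  dS : ∀ u, HasDerivAt S (C u * D u) u
  dC : ∀ u, HasDerivAt C (-(S u * D u)) u
  dD : ∀ u, HasDerivAt D (-(q * S u * C u)) u
  S0 : S 0 = 0
  C0 : C 0 = 1
  D0 : D 0 = 1
  hC : ∀ u, C u ^ 2 = 1 - S u ^ 2
  hD : ∀ u, D u ^ 2 = 1 - q * S u ^ 2
  Dpos : ∀ u, 0 < D u
  Sneg : ∀ u, S (-u) = - S u
  Cneg : ∀ u, C (-u) = C u
  Dneg : ∀ u, D (-u) = D u
  surj : ∀ s c : ℝ, s ^ 2 + c ^ 2 = 1 → ∃ u, S u = s ∧ C u = c

lemma exists_Jac {q : ℝ} (h0 : 0 ≤ q) (h1 : q < 1) : Nonempty (Jac q) := by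
  obtain ⟨A, hA, hA0, hAn, hAs⟩ := exists_am h0 h1
  refine ⟨⟨fun u => Real.sin (A u), fun u => Real.cos (A u), fun u => dl q (A u),
    fun u => (Real.hasDerivAt_sin (A u)).comp u (hA u),
    fun u => ?_, fun u => ?_, by simp [hA0], by simp [hA0],
    by simp [hA0, dl], fun u => ?_, fun u => dl_sq h0 h1 _,
    fun u => dl_pos h0 h1 _, fun u => by simp [hAn],
    fun u => by simp [hAn], fun u => by simp [hAn, dl_neg],
    ?_⟩⟩
  · have := (Real.hasDerivAt_cos (A u)).comp u (hA u)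
    exact this.congr_deriv (by ring)
  · have := (hasDerivAt_dl h0 h1 (A u)).comp u (hA u)
    have hp := dl_pos h0 h1 (A u)
    exact this.congr_deriv (by field_simp)
  · have := Real.sin_sq_add_cos_sq (A u)
    linarith
  · intro s c h
    obtain ⟨t, ht1, ht2⟩ : ∃ t : ℝ, Real.sin t = s ∧ Real.cos t = c := by
      have h2 : (c : ℝ) ^ 2 + s ^ 2 = 1 := by linarith
      let z : ℂ := ⟨c, s⟩
      have hz : ‖z‖ = 1 := by
        rw [Complex.norm_def, Complex.normSq_mk]
        rw [show c * c + s * s = 1 by linarith]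
        simp
      refine ⟨Complex.arg z, ?_, ?_⟩
      · rw [Complex.sin_arg, hz]; simp [z]
      · rw [Complex.cos_arg (by intro h0; rw [h0] at hz; simp at hz), hz]; simp [z]
    obtain ⟨u, hu⟩ := hAs t
    exact ⟨u, by simp only [hu, ht1], by simp only [hu, ht2]⟩

end

end Pool.Agent.RatTet
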