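import Pool.Agent.RatTet.Group

set_option autoImplicit false

namespace Pool.Agent.RatTet

open Filter Topology

/-- 3-adic absolute value on the rationals -/
def N (x : ℚ) : ℚ := padicNorm 3 x

lemma N_mul (x y : ℚ) : N (x * y) = N x * N y := padicNorm.mul x y
lemma N_nonneg (x : ℚ) : 0 ≤ N x := padicNorm.nonneg x
lemma N_neg (x : ℚ) : N (-x) = N x := padicNorm.neg x
lemma N_one : N 1 = 1 := padicNorm.one
lemma N_zero : N 0 = 0 := padicNorm.zero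
lemma N_ne (x : ℚ) (h : x ≠ 0) : N x ≠ 0 := padicNorm.nonzero h
lemma N_div (x y : ℚ) : N (x / y) = N x / N y := padicNorm.div x y
lemma N_pow (x : ℚ) (n : ℕ) : N (x ^ n) = N x ^ n := by
  induction n with
  | zero => simp [N_one]
  | succ n ih => rw [pow_succ, pow_succ, N_mul, ih]

lemma N_add {x y r : ℚ} (hx : N x ≤ r) (hy : N y ≤ r) : N (x + y) ≤ r :=
  le_trans padicNorm.nonarchimedean (max_le hx hy)

lemma N_sub {x y r : ℚ} (hx : N x ≤ r) (hy : N y ≤ r) : N (x - y) ≤ r := by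
  rw [sub_eq_add_neg]
  exact N_add hx (by rw [N_neg]; exact hy)

lemma N_eq_of_sub {x y : ℚ} (h : N (x - y) < N y) : N x = N y := by
  have h1 : N x ≤ N y := by
    have : x = (x - y) + y := by ring
    rw [this]
    exact N_add h.le le_rfl
  have h2 : N y ≤ max (N x) (N (x - y)) := by
    have : y = x - (x - y) := by ring
    conv_lhs => rw [this]
    exact N_sub (le_max_left _ _) (le_max_right _ _)
  rcases le_max_iff.mp h2 with h3 | h3
  · exact le_antisymm h1 h3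
  · exact absurd h (not_lt.mpr h3)

lemma N_three : N 3 = 1 / 3 := by
  unfold N
  have : padicNorm 3 (3:ℚ) = (3:ℚ)⁻¹ := by
    exact_mod_cast padicNorm.padicNorm_p_of_prime (p := 3)
  rw [this]
  norm_num

lemma N_two : N 2 = 1 := by
  unfold N
  have : padicNorm 3 ((2:ℕ):ℚ) = 1 := by
    rw [padicNorm.nat_eq_one_iff]
    norm_num
  exact_mod_cast this

lemma N_nat (n : ℕ) (h : ¬ 3 ∣ n) : N (n : ℚ) = 1 := by
  unfold N
  rw [padicNorm.nat_eq_one_iff]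
  exact h

lemma N_nat_le (n : ℕ) : N (n : ℚ) ≤ 1 := by
  unfold N
  have := padicNorm.of_int (p := 3) (n : ℤ)
  exact_mod_cast this

lemma N_one_add {x : ℚ} (h : N (x - 1) < 1) : N x = 1 := by
  have := N_eq_of_sub (x := x) (y := 1) (by rw [N_one]; exact h)
  rw [this, N_one]

/-- precise size of `x - 1` when `x^2 = 1 - y`, `x ≡ 1`. -/
lemma N_sub_one {x y : ℚ} (h : N (x - 1) < 1) (hxy : x ^ 2 = 1 - y) : N (x - 1) = N y := by
  have h1 : (x - 1) * (x + 1) = - y := by linear_combination hxy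
  have h2 : N (x + 1) = 1 := by
    have := N_eq_of_sub (x := x + 1) (y := 2) (by
      rw [N_two]
      have e : x + 1 - 2 = x - 1 := by ring
      rw [e]; exact h)
    rw [this, N_two]
  have h3 := N_mul (x - 1) (x + 1)
  rw [h1, N_neg, h2, mul_one] at h3
  exact h3.symm

lemma N_mul_le {x y a b : ℚ} (hx : N x ≤ a) (hy : N y ≤ b) : N (x * y) ≤ a * b := by
  rw [N_mul]
  exact mul_le_mul hx hy (N_nonneg _) (le_trans (N_nonneg _) hx)

/-- one addition step, 3-adically -/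
lemma add_step {q r s1 c1 d1 s2 c2 d2 : ℚ} (hq : N q ≤ 1) (hr0 : 0 ≤ r) (hr : r ≤ 1 / 3)
    (hs1 : N s1 ≤ r) (hc1 : N (c1 - 1) ≤ r ^ 2) (hd1 : N (d1 - 1) ≤ r ^ 2)
    (hs2 : N s2 ≤ r) (hc2 : N (c2 - 1) ≤ r ^ 2) (hd2 : N (d2 - 1) ≤ r ^ 2) :
    1 - q * s1 ^ 2 * s2 ^ 2 ≠ 0 ∧
    N ((s1 * c2 * d2 + s2 * c1 * d1) / (1 - q * s1 ^ 2 * s2 ^ 2)) ≤ r ∧
    N ((c1 * c2 - s1 * s2 * d1 * d2) / (1 - q * s1 ^ 2 * s2 ^ 2) - 1) ≤ r ^ 2 ∧
    N ((d1 * d2 - q * s1 * s2 * c1 * c2) / (1 - q * s1 ^ 2 * s2 ^ 2) - 1) ≤ r ^ 2 ∧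
    N ((s1 * c2 * d2 + s2 * c1 * d1) / (1 - q * s1 ^ 2 * s2 ^ 2) - (s1 + s2)) ≤ r ^ 3 := by
  have hr1 : r ^ 2 < 1 := by nlinarith
  have hr2 : r ≤ 1 := by linarith
  have hNc1 : N c1 ≤ 1 := (N_one_add (lt_of_le_of_lt hc1 hr1)).le
  have hNc2 : N c2 ≤ 1 := (N_one_add (lt_of_le_of_lt hc2 hr1)).le
  have hNd1 : N d1 ≤ 1 := (N_one_add (lt_of_le_of_lt hd1 hr1)).le
  have hNd2 : N d2 ≤ 1 := (N_one_add (lt_of_le_of_lt hd2 hr1)).le
  have hqs : N (q * s1 ^ 2 * s2 ^ 2) ≤ r ^ 4 := by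
    rw [N_mul, N_mul, N_pow, N_pow]
    have h1 : N s1 ^ 2 ≤ r ^ 2 := pow_le_pow_left₀ (N_nonneg _) hs1 2
    have h2 : N s2 ^ 2 ≤ r ^ 2 := pow_le_pow_left₀ (N_nonneg _) hs2 2
    calc N q * N s1 ^ 2 * N s2 ^ 2 ≤ 1 * r ^ 2 * r ^ 2 := by
          apply mul_le_mul (mul_le_mul hq h1 (by positivity) (by norm_num)) h2
            (pow_nonneg (N_nonneg _) 2) (by positivity)
      _ = r ^ 4 := by ring
  have hr4 : r ^ 4 ≤ r ^ 2 := by nlinarith [sq_nonneg r]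
  have hr43 : r ^ 4 ≤ r ^ 3 := by
    have : 0 ≤ r ^ 3 := by positivity
    nlinarith
  have hden : N (1 - q * s1 ^ 2 * s2 ^ 2) = 1 := by
    apply N_one_add
    have e : 1 - q * s1 ^ 2 * s2 ^ 2 - 1 = -(q * s1 ^ 2 * s2 ^ 2) := by ring
    rw [e, N_neg]
    exact lt_of_le_of_lt hqs (lt_of_le_of_lt hr4 hr1)
  have hden0 : 1 - q * s1 ^ 2 * s2 ^ 2 ≠ 0 := by
    intro h
    rw [h, N_zero] at hden
    norm_num at hden
  have hcd2 : N (c2 * d2 - 1) ≤ r ^ 2 := by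
    have e : c2 * d2 - 1 = (c2 - 1) * d2 + (d2 - 1) := by ring
    rw [e]
    exact N_add (by simpa using N_mul_le hc2 hNd2) hd2
  have hcd1 : N (c1 * d1 - 1) ≤ r ^ 2 := by
    have e : c1 * d1 - 1 = (c1 - 1) * d1 + (d1 - 1) := by ring
    rw [e]
    exact N_add (by simpa using N_mul_le hc1 hNd1) hd1
  have key : N ((s1 * c2 * d2 + s2 * c1 * d1) / (1 - q * s1 ^ 2 * s2 ^ 2) - (s1 + s2)) ≤ r ^ 3 := by
    have e : (s1 * c2 * d2 + s2 * c1 * d1) / (1 - q * s1 ^ 2 * s2 ^ 2) - (s1 + s2)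
        = (s1 * (c2 * d2 - 1) + s2 * (c1 * d1 - 1) + (s1 + s2) * (q * s1 ^ 2 * s2 ^ 2))
          / (1 - q * s1 ^ 2 * s2 ^ 2) := by
      rw [eq_div_iff hden0, sub_mul, div_mul_cancel₀ _ hden0]
      ring
    rw [e, N_div, hden, div_one]
    apply N_add (N_add _ _)
    · calc N ((s1 + s2) * (q * s1 ^ 2 * s2 ^ 2)) ≤ r * r ^ 4 := N_mul_le (N_add hs1 hs2) hqs
        _ ≤ 1 * r ^ 3 := mul_le_mul hr2 hr43 (by positivity) (by norm_num)
        _ = r ^ 3 := by ring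
    · calc N (s1 * (c2 * d2 - 1)) ≤ r * r ^ 2 := N_mul_le hs1 hcd2
        _ = r ^ 3 := by ring
    · calc N (s2 * (c1 * d1 - 1)) ≤ r * r ^ 2 := N_mul_le hs2 hcd1
        _ = r ^ 3 := by ring
  have hr3 : r ^ 3 ≤ r := by nlinarith
  refine ⟨hden0, ?_, ?_, ?_, key⟩
  · have e : (s1 * c2 * d2 + s2 * c1 * d1) / (1 - q * s1 ^ 2 * s2 ^ 2)
        = ((s1 * c2 * d2 + s2 * c1 * d1) / (1 - q * s1 ^ 2 * s2 ^ 2) - (s1 + s2)) + (s1 + s2) := by
      ring
    rw [e]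
    exact N_add (le_trans key hr3) (N_add hs1 hs2)
  · have e : (c1 * c2 - s1 * s2 * d1 * d2) / (1 - q * s1 ^ 2 * s2 ^ 2) - 1
        = ((c1 - 1) * c2 + (c2 - 1) - s1 * s2 * (d1 * d2) + q * s1 ^ 2 * s2 ^ 2)
          / (1 - q * s1 ^ 2 * s2 ^ 2) := by
      rw [eq_div_iff hden0, sub_mul, div_mul_cancel₀ _ hden0]
      ring
    rw [e, N_div, hden, div_one]
    apply N_add (N_sub (N_add _ hc2) _) (le_trans hqs hr4)
    · simpa using N_mul_le hc1 hNc2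
    · calc N (s1 * s2 * (d1 * d2)) ≤ (r * r) * (1 * 1) :=
            N_mul_le (N_mul_le hs1 hs2) (N_mul_le hNd1 hNd2)
        _ = r ^ 2 := by ring
  · have e : (d1 * d2 - q * s1 * s2 * c1 * c2) / (1 - q * s1 ^ 2 * s2 ^ 2) - 1
        = ((d1 - 1) * d2 + (d2 - 1) - q * (s1 * s2) * (c1 * c2) + q * s1 ^ 2 * s2 ^ 2)
          / (1 - q * s1 ^ 2 * s2 ^ 2) := by
      rw [eq_div_iff hden0, sub_mul, div_mul_cancel₀ _ hden0]
      ring
    rw [e, N_div, hden, div_one]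
    apply N_add (N_sub (N_add _ hd2) _) (le_trans hqs hr4)
    · simpa using N_mul_le hd1 hNd2
    · calc N (q * (s1 * s2) * (c1 * c2)) ≤ (1 * (r * r)) * (1 * 1) :=
            N_mul_le (N_mul_le hq (N_mul_le hs1 hs2)) (N_mul_le hNc1 hNc2)
        _ = r ^ 2 := by ring

/-- multiples of a point, 3-adically -/
lemma multiples {q : ℚ} (h0 : 0 ≤ q) (J : Jac (q : ℝ)) (hq : N q ≤ 1) {u : ℝ} {s c d r : ℚ}
    (hr0 : 0 ≤ r) (hr : r ≤ 1 / 3)
    (hs : J.S u = s) (hc : J.C u = c) (hd : J.D u = d)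
    (hNs : N s ≤ r) (hNc : N (c - 1) ≤ r ^ 2) (hNd : N (d - 1) ≤ r ^ 2) (n : ℕ) :
    ∃ s' c' d' : ℚ, J.S (n * u) = s' ∧ J.C (n * u) = c' ∧ J.D (n * u) = d' ∧
      N s' ≤ r ∧ N (c' - 1) ≤ r ^ 2 ∧ N (d' - 1) ≤ r ^ 2 ∧ N (s' - n * s) ≤ r ^ 3 := by
  have h0' : (0:ℝ) ≤ q := by exact_mod_cast h0
  induction n with
  | zero =>
    refine ⟨0, 1, 1, by simp [J.S0], by simp [J.C0], by simp [J.D0], by rw [N_zero]; exact hr0,
      ?_, ?_, ?_⟩ <;> simp [N_zero] <;> positivity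
  | succ n ih =>
    obtain ⟨s', c', d', hs', hc', hd', k1, k2, k3, k4⟩ := ih
    obtain ⟨hden, a1, a2, a3, a4⟩ := add_step hq hr0 hr k1 k2 k3 hNs hNc hNd
    have hp := J.den_pos h0' (n * u) u
    have e : ((n + 1 : ℕ) : ℝ) * u = n * u + u := by push_cast; ring
    refine ⟨_, _, _, ?_, ?_, ?_, a1, a2, a3, ?_⟩
    · rw [e, eq_div_of_mul_eq hp.ne' (J.add_S h0' (n * u) u), hs, hc, hd, hs', hc', hd']
      push_cast
      rfl
    · rw [e, eq_div_of_mul_eq hp.ne' (J.add_C h0' (n * u) u), hs, hc, hd, hs', hc', hd']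
      push_cast
      rfl
    · rw [e, eq_div_of_mul_eq hp.ne' (J.add_D h0' (n * u) u), hs, hc, hd, hs', hc', hd']
      push_cast
      rfl
    · have e2 : (s' * c * d + s * c' * d') / (1 - q * s' ^ 2 * s ^ 2) - ((n + 1 : ℕ) : ℚ) * s
          = ((s' * c * d + s * c' * d') / (1 - q * s' ^ 2 * s ^ 2) - (s' + s)) + (s' - n * s) := by
        push_cast; ring
      rw [e2]
      exact N_add a4 k4

/-- a 3-adically small point has infinite order -/
lemma infinite_order {q : ℚ} (h0 : 0 ≤ q) (J : Jac (q : ℝ)) (hq : N q ≤ 1) (n : ℕ) :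
    n ≠ 0 → ∀ (u : ℝ) (s c d : ℚ), J.S u = s → J.C u = c → J.D u = d → s ≠ 0 → N s ≤ 1 / 3 →
      N (c - 1) < 1 → N (d - 1) < 1 → J.S (n * u) ≠ 0 := by
  induction n using Nat.strong_induction_on with
  | _ n ih =>
    intro hn u s c d hs hc hd hs0 hNs hNc hNd
    have hc2 : c ^ 2 = 1 - s ^ 2 := by
      have := J.hC u
      rw [hs, hc] at this
      exact_mod_cast this
    have hd2 : d ^ 2 = 1 - q * s ^ 2 := by
      have := J.hD u
      rw [hs, hd] at this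
      exact_mod_cast this
    have hr0 : 0 < N s := lt_of_le_of_ne (N_nonneg s) (N_ne s hs0).symm
    have hc3 : N (c - 1) ≤ N s ^ 2 := by rw [N_sub_one hNc hc2, N_pow]
    have hd3 : N (d - 1) ≤ N s ^ 2 := by
      rw [N_sub_one hNd hd2, N_mul, N_pow]
      calc N q * N s ^ 2 ≤ 1 * N s ^ 2 := mul_le_mul_of_nonneg_right hq (by positivity)
        _ = N s ^ 2 := one_mul _
    by_cases h3 : 3 ∣ n
    · obtain ⟨k, rfl⟩ := h3
      obtain ⟨s', c', d', hs', hc', hd', k1, k2, k3, k4⟩ :=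
        multiples h0 J hq (N_nonneg s) hNs hs hc hd le_rfl hc3 hd3 3
      have hN3s : N ((3:ℕ) * s) = N s / 3 := by
        rw [N_mul]
        push_cast
        rw [N_three]
        ring
      have hlt : N s ^ 3 < N s / 3 := by nlinarith
      have hs'N : N s' = N s / 3 := by
        rw [← hN3s]
        apply N_eq_of_sub
        rw [hN3s]
        exact lt_of_le_of_lt k4 hlt
      have hs'0 : s' ≠ 0 := by
        rintro rfl
        rw [N_zero] at hs'N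
        linarith
      have hk : k ≠ 0 := by
        rintro rfl
        simp at hn
      have hsq : N s ^ 2 < 1 := by nlinarith
      have := ih k (by omega) hk (((3:ℕ):ℝ) * u) s' c' d' hs' hc' hd' hs'0
        (by rw [hs'N]; linarith) (lt_of_le_of_lt k2 hsq) (lt_of_le_of_lt k3 hsq)
      have e : ((3 * k : ℕ) : ℝ) * u = (k : ℝ) * (((3:ℕ):ℝ) * u) := by push_cast; ring
      rw [e]
      exact this
    · obtain ⟨s', c', d', hs', hc', hd', k1, k2, k3, k4⟩ :=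
        multiples h0 J hq (N_nonneg s) hNs hs hc hd le_rfl hc3 hd3 n
      intro hz
      rw [hs'] at hz
      have hz' : s' = 0 := by exact_mod_cast hz
      rw [hz', zero_sub, N_neg, N_mul, N_nat n h3, one_mul] at k4
      nlinarith

end Pool.Agent.RatTet
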